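import Pool.Agent.Lib.Sm.G.TowerA

/-!
# SMITH, block G6: independence of the `f_l`, generation of `Z j`, description of `Λ_j`
-/

set_option autoImplicit false

namespace Pool.Agent.Sm

namespace Tower

variable {F M M' : Type*} [AddCommGroup F] [Module (ZMod 2) F] [AddCommGroup M] [AddCommGroup M']
  {W : Tower F M} {W' : Tower F M'}

private theorem zval (x : ZMod 2) : ((x.val : ℕ) : ZMod 2) = x := ZMod.natCast_zmod_val x

private theorem zne {x : ZMod 2} (h : x ≠ 0) : x = 1 := by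
  have : ∀ x : ZMod 2, x ≠ 0 → x = 1 := by decide
  exact this _ h

private theorem zvalsmul (x : ZMod 2) (a : F) : x.val • a = x • a := by
  rw [← Nat.cast_smul_eq_nsmul (ZMod 2), zval]

/-- `c` of a linear combination. -/
private theorem c_sum (W : Tower F M) {r : ℕ} (x : Fin r → ZMod 2) (cc : Fin r → F) :
    W.c (∑ l, x l • cc l) = ∑ l, (x l).val • W.c (cc l) := by
  rw [map_sum]
  refine Finset.sum_congr rfl fun l _ => ?_
  rw [← zvalsmul, map_nsmul]

/-- Independence of the `f_l` with `j(l) < k`. -/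
theorem f_indep (h : W.Ok) {k r : ℕ} {cc : Fin r → F} (had : Adapted W.Fs W.L W.Kp k cc)
    {jl : Fin r → ℕ} (h1 : ∀ l, 1 ≤ jl l) (hmax : ∀ l, jl l < k → cc l ∉ W.L (jl l + 1))
    {f : Fin r → F → ZMod 2} (hf : ∀ l, jl l < k → (cc l, f l) ∈ W.Lam (jl l))
    (x : Fin r → ZMod 2) (hx : ∀ l, x l ≠ 0 → jl l < k)
    (h0 : ∀ d ∈ W.Fs, ∑ l, x l * f l d = 0) : x = 0 := by
  classical
  by_contra hne
  obtain ⟨l0, hl0⟩ : ∃ l, x l ≠ 0 := by
    by_contra hall
    push Not at hall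
    exact hne (funext hall)
  obtain ⟨lm, hlm, hmx⟩ := Finset.exists_max_image (Finset.univ.filter fun l => x l ≠ 0) jl
    ⟨l0, by simpa using hl0⟩
  have hlm' : x lm ≠ 0 := by simpa using hlm
  have hmx' : ∀ l, x l ≠ 0 → jl l ≤ jl lm := fun l hl => hmx l (by simpa using hl)
  have hJ : jl lm < k := hx lm hlm'
  -- the chosen cocycles
  have hm : ∀ l, ∃ m ∈ W.Z (jl l), x l ≠ 0 → (2 : ℕ) ^ (jl l - 1) • m = W.c (cc l) ∧
      f l = W.ev m := by
    intro l
    by_cases hl : x l = 0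
    · exact ⟨0, AddSubgroup.zero_mem _, fun hh => absurd hl hh⟩
    · obtain ⟨m, hm, e, e'⟩ := hf l (hx l hl)
      exact ⟨m, hm, fun _ => ⟨e, e'⟩⟩
  choose m hm hm' using hm
  have hmem : ∀ l ∈ (Finset.univ : Finset (Fin r)), (x l).val • m l ∈ W.Z (jl lm) := by
    intro l _
    by_cases hl : x l = 0
    · rw [hl]; simp
    · exact AddSubgroup.nsmul_mem _ (Zmono h (hmx' l hl) (hm l)) _
  set J := jl lm with hJdef
  have hJ1 : 1 ≤ J := h1 lm
  have hL : ((∑ l, (if jl l = J then x l else 0) • cc l, (0 : F → ZMod 2)) : F × (F → ZMod 2)) ∈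
      W.Lam J := by
    refine ⟨∑ l, (x l).val • m l, AddSubgroup.sum_mem _ hmem, ?_, ?_⟩
    · rw [c_sum, Finset.smul_sum]
      refine Finset.sum_congr rfl fun l _ => ?_
      by_cases hl : x l = 0
      · simp [hl]
      · rw [zne hl]
        have h11 : (1 : ZMod 2).val = 1 := rfl
        rcases (hmx' l hl).lt_or_eq with hlt | heq
        · rw [if_neg hlt.ne, ZMod.val_zero, zero_smul, h11, one_smul]
          obtain ⟨e, he⟩ := Nat.exists_eq_add_of_le (Nat.le_sub_one_of_lt hlt)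
          rw [he, add_comm, pow_add, mul_smul, h.lev _ _ (hm l), smul_zero]
        · rw [if_pos heq, h11, one_smul, one_smul, ← (hm' l hl).1, heq]
    · symm
      funext d
      by_cases hd : d ∈ W.Fs
      · rw [ev_of_mem hd, P_sum h _ _ hmem (cmem h hd)]
        change _ = (0 : ZMod 2)
        rw [← h0 d hd]
        refine Finset.sum_congr rfl fun l _ => ?_
        rw [P_nsmul h (hm l) (cmem h hd), zval]
        by_cases hl : x l = 0
        · simp [hl]
        · rw [(hm' l hl).2, ev_of_mem hd]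
      · rw [ev_of_notMem hd]; rfl
  rw [lam_zero_right h hJ1] at hL
  have hc := had.adapt (J + 1) (Nat.succ_le_succ (Nat.zero_le _)) hJ _ hL lm
    (by rw [if_pos rfl]; exact hlm')
  exact hmax lm hJ hc

/-- GENERATION of `Z j`. -/
theorem gen (h : W.Ok) {k r : ℕ} {cc : Fin r → F}
    (hspan : ∀ a ∈ W.Fs, ∃ x : Fin r → ZMod 2, a - ∑ i, x i • cc i ∈ W.Kp)
    {jl : Fin r → ℕ} {Psi : Fin r → M} (hP : ∀ l, Psi l ∈ W.Z (jl l))
    (hc : ∀ l, (2 : ℕ) ^ (jl l - 1) • Psi l = W.c (cc l))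
    (hind : ∀ x : Fin r → ZMod 2, (∀ l, x l ≠ 0 → jl l < k) →
      (∀ d ∈ W.Fs, ∑ l, x l * W.P (Psi l) (W.c d) = 0) → x = 0)
    {j : ℕ} (hj : 1 ≤ j) (hjk : j ≤ k) (m : M) (hm : m ∈ W.Z j) :
    ∃ t ∈ W.T, t ∈ W.Z j ∧ ∃ n : Fin r → ℕ, m = t + ∑ l, n l • ((2 : ℕ) ^ (jl l - j) • Psi l) := by
  classical
  -- the generators are in `Z j`
  have hg : ∀ i l, (2 : ℕ) ^ (jl l - i) • Psi l ∈ W.Z i := by
    intro i l
    rcases le_total i (jl l) with hle | hle
    · exact pow_mem h _ (by rw [Nat.add_sub_cancel' hle]; exact hP l)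
    · rw [Nat.sub_eq_zero_of_le hle, pow_zero, one_smul]
      exact Zmono h hle (hP l)
  suffices hs : ∃ t ∈ W.T, ∃ n : Fin r → ℕ, m = t + ∑ l, n l • ((2 : ℕ) ^ (jl l - j) • Psi l) by
    obtain ⟨t, ht, n, e⟩ := hs
    refine ⟨t, ht, ?_, n, e⟩
    have : t = m - ∑ l, n l • ((2 : ℕ) ^ (jl l - j) • Psi l) := by rw [e, add_sub_cancel_right]
    rw [this]
    exact AddSubgroup.sub_mem _ hm
      (AddSubgroup.sum_mem _ fun l _ => AddSubgroup.nsmul_mem _ (hg j l) _)
  induction j, hj using Nat.le_induction generalizing m with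
  | base =>
    obtain ⟨a, ha, rfl⟩ := (h.crange m).1 hm
    obtain ⟨x, hx⟩ := hspan a ha
    refine ⟨W.c (a - ∑ i, x i • cc i), (W.mem_Kp _).1 hx, fun l => (x l).val, ?_⟩
    rw [map_sub, c_sum]
    simp only [hc]
    abel
  | succ j hj ih =>
    have hjk' : j ≤ k := Nat.le_of_succ_le hjk
    obtain ⟨t, ht, n, e⟩ := ih hjk' _ (dbl_mem h hm)
    have htz : t ∈ W.Z j := by
      have : t = (2 : ℕ) • m - ∑ l, n l • ((2 : ℕ) ^ (jl l - j) • Psi l) := by
        rw [e, add_sub_cancel_right]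
      rw [this]
      exact AddSubgroup.sub_mem _ (dbl_mem h hm)
        (AddSubgroup.sum_mem _ fun l _ => AddSubgroup.nsmul_mem _ (hg j l) _)
    -- parity of the coefficients
    have hpar : (fun l => if jl l ≤ j then ((n l : ℕ) : ZMod 2) else 0) = 0 := by
      refine hind _ (fun l hl => ?_) fun d hd => ?_
      · by_contra hcon
        apply hl
        rw [if_neg]
        intro hh
        exact hcon (lt_of_le_of_lt hh hjk)
      · have h2 := P_dbl h hm (cmem h hd)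
        rw [e, h.addl j _ htz _ (AddSubgroup.sum_mem _ fun l _ =>
          AddSubgroup.nsmul_mem _ (hg j l) _) _ (cmem h hd), P_tors h ht (cmem h hd), zero_add,
          P_sum h _ _ (fun l _ => AddSubgroup.nsmul_mem _ (hg j l) _) (cmem h hd)] at h2
        refine Eq.trans ?_ h2
        refine Finset.sum_congr rfl fun l _ => ?_
        rw [P_nsmul h (hg j l) (cmem h hd)]
        split_ifs with hle
        · rw [Nat.sub_eq_zero_of_le hle, pow_zero, one_smul]
        · push Not at hle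
          rw [zero_mul]
          have : (2 : ℕ) ^ (jl l - j) • Psi l = (2 : ℕ) • ((2 : ℕ) ^ (jl l - (j + 1)) • Psi l) := by
            rw [smul_smul, ← pow_succ']
            congr 2
            omega
          rw [this, P_dbl h (hg (j + 1) l) (cmem h hd), mul_zero]
    have heven : ∀ l, jl l ≤ j → ∃ e, n l = 2 * e := by
      intro l hl
      have := congrFun hpar l
      simp only [if_pos hl, Pi.zero_apply] at this
      exact (ZMod.natCast_eq_zero_iff (n l) 2).1 this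
    obtain ⟨t', ht', et'⟩ := h.tdiv t ht
    have ht'z : t' ∈ W.Z (j + 1) := by
      refine h.tlev _ _ ht' ?_
      rw [pow_succ, mul_smul, et']
      exact h.lev _ _ htz
    have hn' : ∀ l, ∃ e : ℕ, n l • ((2 : ℕ) ^ (jl l - j) • Psi l) =
        (2 : ℕ) • (e • ((2 : ℕ) ^ (jl l - (j + 1)) • Psi l)) := by
      intro l
      by_cases hl : jl l ≤ j
      · obtain ⟨e, he⟩ := heven l hl
        refine ⟨e, ?_⟩
        rw [Nat.sub_eq_zero_of_le hl, Nat.sub_eq_zero_of_le (by omega), he, mul_smul]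
      · push Not at hl
        refine ⟨n l, ?_⟩
        have : (2 : ℕ) ^ (jl l - j) = 2 * 2 ^ (jl l - (j + 1)) := by
          rw [← pow_succ']
          congr 1
          omega
        rw [this, mul_smul, smul_comm]
    choose n' hn' using hn'
    set m0 : M := t' + ∑ l, n' l • ((2 : ℕ) ^ (jl l - (j + 1)) • Psi l) with hm0
    have hm0z : m0 ∈ W.Z (j + 1) := AddSubgroup.add_mem _ ht'z
      (AddSubgroup.sum_mem _ fun l _ => AddSubgroup.nsmul_mem _ (hg (j + 1) l) _)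
    have h2m0 : (2 : ℕ) • m0 = (2 : ℕ) • m := by
      rw [e, hm0, smul_add, et', Finset.smul_sum]
      congr 1
      exact (Finset.sum_congr rfl fun l _ => hn' l).symm
    have hdiff : m - m0 ∈ W.Z 1 := by
      refine low_mem h (AddSubgroup.sub_mem _ hm hm0z) ?_
      rw [pow_one, smul_sub, h2m0, sub_self]
    obtain ⟨a, haF, ha⟩ := (h.crange _).1 hdiff
    obtain ⟨x, hx⟩ := hspan a haF
    have hexp : ∀ l, ∃ e : ℕ, (x l).val • W.c (cc l) =
        e • ((2 : ℕ) ^ (jl l - (j + 1)) • Psi l) := by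
      intro l
      refine ⟨(x l).val * 2 ^ ((jl l - 1) - (jl l - (j + 1))), ?_⟩
      rw [← hc l, mul_smul, smul_smul (2 ^ ((jl l - 1) - (jl l - (j + 1)))), ← pow_add]
      congr 3
      omega
    choose e1 he1 using hexp
    refine ⟨t' + W.c (a - ∑ i, x i • cc i), AddSubgroup.add_mem _ ht' ((W.mem_Kp _).1 hx),
      fun l => n' l + e1 l, ?_⟩
    have hm' : m = m0 + W.c a := by rw [ha]; abel
    rw [hm', hm0, map_sub, c_sum, Finset.sum_congr rfl fun l _ => he1 l]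
    simp only [add_smul, Finset.sum_add_distrib]
    abel

/-- Explicit description of `Λ_j`, `j < k`. -/
theorem lam_iff (h : W.Ok) {k r : ℕ} {cc : Fin r → F}
    (hspan : ∀ a ∈ W.Fs, ∃ x : Fin r → ZMod 2, a - ∑ i, x i • cc i ∈ W.Kp)
    {jl : Fin r → ℕ} {Psi : Fin r → M} (hP : ∀ l, Psi l ∈ W.Z (jl l))
    (hc : ∀ l, (2 : ℕ) ^ (jl l - 1) • Psi l = W.c (cc l))
    (hind : ∀ x : Fin r → ZMod 2, (∀ l, x l ≠ 0 → jl l < k) →
      (∀ d ∈ W.Fs, ∑ l, x l * W.P (Psi l) (W.c d) = 0) → x = 0)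
    {j : ℕ} (hj : 1 ≤ j) (hjk : j < k) (p : F × (F → ZMod 2)) :
    p ∈ W.Lam j ↔ ∃ kap ∈ W.Kp, ∃ x y : Fin r → ZMod 2, (∀ l, jl l < j → x l = 0) ∧
      (∀ l, j < jl l → y l = 0) ∧ (∀ l, jl l = j → x l = y l) ∧
      p.1 = kap + ∑ l, x l • cc l ∧ p.2 = ∑ l, y l • W.ev (Psi l) := by
  classical
  have hg : ∀ i l, (2 : ℕ) ^ (jl l - i) • Psi l ∈ W.Z i := by
    intro i l
    rcases le_total i (jl l) with hle | hle
    · exact pow_mem h _ (by rw [Nat.add_sub_cancel' hle]; exact hP l)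
    · rw [Nat.sub_eq_zero_of_le hle, pow_zero, one_smul]
      exact Zmono h hle (hP l)
  -- `2^(j-1)` times a generator
  have hpw : ∀ l, (2 : ℕ) ^ (j - 1) • ((2 : ℕ) ^ (jl l - j) • Psi l) =
      if jl l < j then 0 else W.c (cc l) := by
    intro l
    split_ifs with hl
    · rw [Nat.sub_eq_zero_of_le hl.le, pow_zero, one_smul]
      obtain ⟨e, he⟩ := Nat.exists_eq_add_of_le (Nat.le_sub_one_of_lt hl)
      rw [he, add_comm, pow_add, mul_smul, h.lev _ _ (hP l), smul_zero]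
    · push Not at hl
      rw [← hc l, smul_smul, ← pow_add]
      congr 2
      omega
  -- the function of a combination of the generators
  have hev : ∀ (t : M) (_ : t ∈ W.T) (_ : t ∈ W.Z j) (n : Fin r → ℕ),
      W.ev (t + ∑ l, n l • ((2 : ℕ) ^ (jl l - j) • Psi l)) =
        ∑ l, (if j < jl l then 0 else (n l : ZMod 2)) • W.ev (Psi l) := by
    intro t ht htz n
    funext d
    rw [Finset.sum_apply]
    by_cases hd : d ∈ W.Fs
    · rw [ev_of_mem hd, h.addl j _ htz _ (AddSubgroup.sum_mem _ fun l _ =>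
        AddSubgroup.nsmul_mem _ (hg j l) _) _ (cmem h hd), P_tors h ht (cmem h hd), zero_add,
        P_sum h _ _ (fun l _ => AddSubgroup.nsmul_mem _ (hg j l) _) (cmem h hd)]
      refine Finset.sum_congr rfl fun l _ => ?_
      rw [P_nsmul h (hg j l) (cmem h hd), Pi.smul_apply, ev_of_mem hd, smul_eq_mul]
      split_ifs with hl
      · have : (2 : ℕ) ^ (jl l - j) • Psi l = (2 : ℕ) • ((2 : ℕ) ^ (jl l - (j + 1)) • Psi l) := by
          rw [smul_smul, ← pow_succ']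
          congr 2
          omega
        rw [this, P_dbl h (hg (j + 1) l) (cmem h hd), mul_zero, zero_mul]
      · rw [Nat.sub_eq_zero_of_le (not_lt.1 hl), pow_zero, one_smul]
    · rw [ev_of_notMem hd]
      symm
      refine Finset.sum_eq_zero fun l _ => ?_
      rw [Pi.smul_apply, ev_of_notMem hd, smul_zero]
  constructor
  · rintro ⟨m, hm, e, e'⟩
    obtain ⟨t, ht, htz, n, en⟩ := gen h hspan hP hc hind hj hjk.le m hm
    obtain ⟨kap, _, hkap⟩ := exists_code h hj htz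
    refine ⟨kap, ?_, fun l => if jl l < j then 0 else (n l : ZMod 2),
      fun l => if j < jl l then 0 else (n l : ZMod 2), fun l hl => if_pos hl,
      fun l hl => if_pos hl, ?_, ?_, ?_⟩
    · rw [W.mem_Kp, ← hkap]
      exact AddSubgroup.nsmul_mem _ ht _
    · intro l hl
      simp only [hl, lt_irrefl, if_false]
    · apply h.cinj
      rw [← e, en, smul_add, hkap, map_add, Finset.smul_sum, map_sum]
      congr 1
      refine Finset.sum_congr rfl fun l _ => ?_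
      beta_reduce
      rw [smul_comm, hpw l]
      split_ifs with hl
      · simp
      · rw [Nat.cast_smul_eq_nsmul, map_nsmul]
    · rw [e', en, hev t ht htz n]
  · rintro ⟨kap, hkap, x, y, hx, hy, hxy, e1, e2⟩
    obtain ⟨t, ht, htz, et⟩ := exists_tors h hj hkap
    set z : Fin r → ZMod 2 := fun l => if jl l < j then y l else x l with hz
    refine ⟨t + ∑ l, (z l).val • ((2 : ℕ) ^ (jl l - j) • Psi l), ?_, ?_, ?_⟩
    · exact AddSubgroup.add_mem _ htz
        (AddSubgroup.sum_mem _ fun l _ => AddSubgroup.nsmul_mem _ (hg j l) _)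
    · rw [smul_add, et, e1, map_add, c_sum, Finset.smul_sum]
      congr 1
      refine Finset.sum_congr rfl fun l _ => ?_
      rw [smul_comm, hpw l]
      split_ifs with hl
      · rw [hx l hl]; simp
      · simp only [hz, if_neg hl]
    · rw [e2, hev t ht htz]
      refine Finset.sum_congr rfl fun l _ => ?_
      congr 1
      rw [zval]
      rcases lt_trichotomy (jl l) j with hl | hl | hl
      · simp only [hz, if_pos hl, if_neg (not_lt.2 hl.le)]
      · simp only [hz, hl, lt_irrefl, if_false, hxy l hl]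
      · rw [if_pos hl, hy l hl]

/-- CONVERSE (used at the last vertex): two towers with the same `Fs`, `Kp`, `c_l`, `j(l)`, `f_l`
(`f_l`, `j(l) < k`, independent) have the same `Λ_j`, `j < k`. -/
theorem lam_same (h : W.Ok) (h' : W'.Ok) (hF : W.Fs = W'.Fs) (hK : W.Kp = W'.Kp) {k r : ℕ}
    {cc : Fin r → F}
    (hspan : ∀ a ∈ W.Fs, ∃ x : Fin r → ZMod 2, a - ∑ i, x i • cc i ∈ W.Kp)
    {jl : Fin r → ℕ} {f : Fin r → F → ZMod 2}
    (hind : ∀ x : Fin r → ZMod 2, (∀ l, x l ≠ 0 → jl l < k) →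
      (∀ d ∈ W.Fs, ∑ l, x l * f l d = 0) → x = 0)
    {Psi : Fin r → M} (hP : ∀ l, Psi l ∈ W.Z (jl l))
    (hc : ∀ l, (2 : ℕ) ^ (jl l - 1) • Psi l = W.c (cc l))
    (hf : ∀ l, jl l < k → ∀ d ∈ W.Fs, W.P (Psi l) (W.c d) = f l d)
    {Psi' : Fin r → M'} (hP' : ∀ l, Psi' l ∈ W'.Z (jl l))
    (hc' : ∀ l, (2 : ℕ) ^ (jl l - 1) • Psi' l = W'.c (cc l))
    (hf' : ∀ l, jl l < k → ∀ d ∈ W'.Fs, W'.P (Psi' l) (W'.c d) = f l d)
    {j : ℕ} (hj : 1 ≤ j) (hjk : j < k) : W.Lam j = W'.Lam j := by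
  have hi : ∀ x : Fin r → ZMod 2, (∀ l, x l ≠ 0 → jl l < k) →
      (∀ d ∈ W.Fs, ∑ l, x l * W.P (Psi l) (W.c d) = 0) → x = 0 := by
    intro x hx h0
    refine hind x hx fun d hd => ?_
    rw [← h0 d hd]
    refine Finset.sum_congr rfl fun l _ => ?_
    by_cases hl : x l = 0
    · rw [hl]; simp
    · rw [hf l (hx l hl) d hd]
  have hi' : ∀ x : Fin r → ZMod 2, (∀ l, x l ≠ 0 → jl l < k) →
      (∀ d ∈ W'.Fs, ∑ l, x l * W'.P (Psi' l) (W'.c d) = 0) → x = 0 := by
    intro x hx h0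
    refine hind x hx fun d hd => ?_
    rw [← h0 d (hF ▸ hd)]
    refine Finset.sum_congr rfl fun l _ => ?_
    by_cases hl : x l = 0
    · rw [hl]; simp
    · rw [hf' l (hx l hl) d (hF ▸ hd)]
  have hev : ∀ l, jl l < k → W.ev (Psi l) = W'.ev (Psi' l) := by
    intro l hl
    funext d
    by_cases hd : d ∈ W.Fs
    · rw [ev_of_mem hd, ev_of_mem (hF ▸ hd), hf l hl d hd, hf' l hl d (hF ▸ hd)]
    · rw [ev_of_notMem hd, ev_of_notMem (hF ▸ hd)]
  have hsum : ∀ y : Fin r → ZMod 2, (∀ l, j < jl l → y l = 0) →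
      ∑ l, y l • W.ev (Psi l) = ∑ l, y l • W'.ev (Psi' l) := by
    intro y hy
    refine Finset.sum_congr rfl fun l _ => ?_
    by_cases hl : j < jl l
    · rw [hy l hl]; simp
    · rw [hev l (lt_of_le_of_lt (not_lt.1 hl) hjk)]
  ext p
  rw [lam_iff h hspan hP hc hi hj hjk p,
    lam_iff h' (by rw [← hK, ← hF]; exact hspan) hP' hc' hi' hj hjk p, ← hK]
  constructor
  · rintro ⟨kap, hkap, x, y, hx, hy, hxy, e1, e2⟩
    exact ⟨kap, hkap, x, y, hx, hy, hxy, e1, by rw [e2, hsum y hy]⟩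
  · rintro ⟨kap, hkap, x, y, hx, hy, hxy, e1, e2⟩
    exact ⟨kap, hkap, x, y, hx, hy, hxy, e1, by rw [e2, hsum y hy]⟩

/-- Existence of the generators `Psi^l` with prescribed `f_l`. -/
theorem exists_Psi {k r : ℕ} {cc : Fin r → F} {jl : Fin r → ℕ}
    {f : Fin r → F → ZMod 2} (hf : ∀ l, jl l < k → (cc l, f l) ∈ W.Lam (jl l))
    (hk : ∀ l, ¬ jl l < k → cc l ∈ W.L (jl l)) :
    ∃ Psi : Fin r → M, (∀ l, Psi l ∈ W.Z (jl l)) ∧
      (∀ l, (2 : ℕ) ^ (jl l - 1) • Psi l = W.c (cc l)) ∧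
      ∀ l, jl l < k → ∀ d ∈ W.Fs, W.P (Psi l) (W.c d) = f l d := by
  have : ∀ l, ∃ m ∈ W.Z (jl l), (2 : ℕ) ^ (jl l - 1) • m = W.c (cc l) ∧
      (jl l < k → ∀ d ∈ W.Fs, W.P m (W.c d) = f l d) := by
    intro l
    by_cases hl : jl l < k
    · obtain ⟨m, hm, e, e'⟩ := hf l hl
      refine ⟨m, hm, e, fun _ d hd => ?_⟩
      rw [← ev_of_mem hd]
      exact (congrFun e' d).symm
    · obtain ⟨m, hm, e⟩ := (W.mem_L _ _).1 (hk l hl)
      exact ⟨m, hm, e, fun hh => absurd hh hl⟩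
  choose Psi h1 h2 h3 using this
  exact ⟨Psi, h1, h2, h3⟩

/-- Existence of the level function `j(l)` and of the `f_l`. -/
theorem exists_jl (h : W.Ok) {k r : ℕ} (hk : 1 ≤ k) {cc : Fin r → F} (hcc : ∀ l, cc l ∈ W.Fs) :
    ∃ (jl : Fin r → ℕ) (f : Fin r → F → ZMod 2), (∀ l, 1 ≤ jl l) ∧ (∀ l, jl l ≤ k) ∧
      (∀ l, cc l ∈ W.L (jl l)) ∧ (∀ l, jl l < k → cc l ∉ W.L (jl l + 1)) ∧
      (∀ l, jl l < k → (cc l, f l) ∈ W.Lam (jl l)) ∧ (∀ l, cc l ∈ W.L k → jl l = k) := by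
  classical
  have : ∀ l, ∃ (j : ℕ) (g : F → ZMod 2), 1 ≤ j ∧ j ≤ k ∧ cc l ∈ W.L j ∧
      (j < k → cc l ∉ W.L (j + 1)) ∧ (j < k → (cc l, g) ∈ W.Lam j) ∧
      (cc l ∈ W.L k → j = k) := by
    intro l
    have hne : ((Finset.Icc 1 k).filter fun j => cc l ∈ W.L j).Nonempty :=
      ⟨1, by simp [hk, L_one h, hcc l]⟩
    obtain ⟨j, hj, hmax⟩ := Finset.exists_max_image _ id hne
    simp only [Finset.mem_filter, Finset.mem_Icc, id] at hj hmax
    obtain ⟨g, hg⟩ := (mem_L_iff_lam (cc l)).1 hj.2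
    refine ⟨j, g, hj.1.1, hj.1.2, hj.2, fun hlt hmem => ?_, fun _ => hg, fun hmem => ?_⟩
    · have := hmax (j + 1) ⟨⟨by omega, hlt⟩, hmem⟩
      omega
    · have := hmax k ⟨⟨hk, le_rfl⟩, hmem⟩
      omega
  choose jl f h1 h2 h3 h4 h5 h6 using this
  exact ⟨jl, f, h1, h2, h3, h4, h5, h6⟩

end Tower

end Pool.Agent.Sm
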