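import Pool.Agent.Lib.Sm.G.TowerA

/-!
# SMITH, block G6: cardinalities and the recursion
-/

set_option autoImplicit false

namespace Pool.Agent.Sm

namespace Tower

variable {F M M' : Type*} [AddCommGroup F] [Module (ZMod 2) F] [AddCommGroup M] [AddCommGroup M']
  {W : Tower F M} {W' : Tower F M'}

/-! ### The splitting `Z (j+1) ≃ L (j+1) × Z j` -/

private noncomputable def rep (W : Tower F M) (j : ℕ) (a : W.L (j + 1)) : M :=
  ((W.mem_L (j + 1) a.1).1 a.2).choose

private theorem rep_mem (W : Tower F M) (j : ℕ) (a : W.L (j + 1)) : rep W j a ∈ W.Z (j + 1) :=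
  ((W.mem_L (j + 1) a.1).1 a.2).choose_spec.1

private theorem rep_code (W : Tower F M) (j : ℕ) (a : W.L (j + 1)) :
    (2 : ℕ) ^ j • rep W j a = W.c a.1 := ((W.mem_L (j + 1) a.1).1 a.2).choose_spec.2

private theorem code_ex (h : W.Ok) (j : ℕ) (m : W.Z (j + 1)) :
    ∃ a : F, (2 : ℕ) ^ j • (m : M) = W.c a := by
  obtain ⟨a, _, e⟩ := exists_code h (Nat.succ_le_succ (Nat.zero_le j)) m.2
  exact ⟨a, e⟩

private noncomputable def code (h : W.Ok) (j : ℕ) (m : W.Z (j + 1)) : W.L (j + 1) :=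
  ⟨(code_ex h j m).choose, (W.mem_L _ _).2 ⟨m, m.2, by
    rw [Nat.add_sub_cancel]; exact (code_ex h j m).choose_spec⟩⟩

private theorem code_spec (h : W.Ok) (j : ℕ) (m : W.Z (j + 1)) :
    (2 : ℕ) ^ j • (m : M) = W.c (code h j m).1 := (code_ex h j m).choose_spec

private theorem code_eq (h : W.Ok) (j : ℕ) (m : W.Z (j + 1)) (a : W.L (j + 1))
    (e : (2 : ℕ) ^ j • (m : M) = W.c a.1) : code h j m = a := by
  apply Subtype.ext
  apply h.cinj
  rw [← code_spec h j m, e]

private noncomputable def split (h : W.Ok) (j : ℕ) : W.Z (j + 1) ≃ W.L (j + 1) × W.Z j where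
  toFun m := (code h j m, ⟨m - rep W j (code h j m), by
    refine h.low j _ (AddSubgroup.sub_mem _ m.2 (rep_mem W j _)) ?_
    rw [smul_sub, rep_code, code_spec h j m, sub_self]⟩)
  invFun p := ⟨rep W j p.1 + p.2, AddSubgroup.add_mem _ (rep_mem W j _) (h.mono _ p.2.2)⟩
  left_inv m := by
    apply Subtype.ext
    simp
  right_inv p := by
    obtain ⟨a, m⟩ := p
    have : code h j ⟨rep W j a + m, AddSubgroup.add_mem _ (rep_mem W j _) (h.mono _ m.2)⟩ = a := by
      apply code_eq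
      rw [smul_add, rep_code, h.lev j _ m.2, add_zero]
    ext1
    · exact this
    · apply Subtype.ext
      simp only [this]
      simp

theorem finite_Z (h : W.Ok) (j : ℕ) : Finite (W.Z j) := by
  induction j with
  | zero => rw [h.zero]; exact inferInstance
  | succ j ih =>
    have := h.fin
    exact Finite.of_equiv _ (split h j).symm

theorem card_Z_zero (h : W.Ok) : Nat.card (W.Z 0) = 1 := by
  rw [h.zero]; simp

theorem card_Z_succ (h : W.Ok) (j : ℕ) :
    Nat.card (W.Z (j + 1)) = Nat.card (W.Z j) * Nat.card (W.L (j + 1)) := by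
  rw [Nat.card_congr (split h j), Nat.card_prod, mul_comm]

theorem card_Z_one (h : W.Ok) : Nat.card (W.Z 1) = Nat.card W.Fs := by
  rw [card_Z_succ h, card_Z_zero h, L_one h, one_mul]

theorem card_Z_pos (h : W.Ok) (j : ℕ) : 0 < Nat.card (W.Z j) := by
  have := finite_Z h j
  exact Nat.card_pos

theorem card_Z_le (h : W.Ok) (j : ℕ) : Nat.card (W.Z j) ≤ Nat.card W.Fs ^ j := by
  have := h.fin
  induction j with
  | zero => rw [card_Z_zero h]; simp
  | succ j ih =>
    rw [card_Z_succ h, pow_succ]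
    refine Nat.mul_le_mul ih ?_
    exact Nat.card_le_card_of_injective
      (fun x : W.L (j + 1) => (⟨x.1, L_le_Fs h (Nat.succ_le_succ (Nat.zero_le j)) x.2⟩ : W.Fs))
      (fun x y hxy => Subtype.ext (congrArg (fun z : W.Fs => (z : F)) hxy))

theorem same_L (h : W.Ok) (h' : W'.Ok) (hF : W.Fs = W'.Fs) {j : ℕ}
    (hl : ∀ i, 1 ≤ i → i < j → W.Lam i = W'.Lam i) {i : ℕ} (hi : 1 ≤ i) (hij : i ≤ j) :
    W.L i = W'.L i := by
  rcases Nat.lt_or_ge 1 i with h1 | h1
  · obtain ⟨e, rfl⟩ := Nat.exists_eq_add_of_le' h1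
    have he : 1 ≤ e + 1 := Nat.succ_le_succ (Nat.zero_le _)
    ext a
    rw [← lam_zero_right h he, ← lam_zero_right h' he, hl (e + 1) he hij]
  · have : i = 1 := le_antisymm h1 hi
    subst this
    rw [L_one h, L_one h', hF]

theorem same_card (h : W.Ok) (h' : W'.Ok) (hF : W.Fs = W'.Fs) {j : ℕ}
    (hl : ∀ i, 1 ≤ i → i < j → W.Lam i = W'.Lam i) {i : ℕ} (hij : i ≤ j) :
    Nat.card (W.Z i) = Nat.card (W'.Z i) := by
  induction i with
  | zero => rw [card_Z_zero h, card_Z_zero h']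
  | succ i ih =>
    rw [card_Z_succ h, card_Z_succ h', ih (Nat.le_of_succ_le hij),
      same_L h h' hF hl (Nat.succ_le_succ (Nat.zero_le _)) hij]

theorem same_perp (h : W.Ok) (h' : W'.Ok) (hF : W.Fs = W'.Fs) {j : ℕ}
    (hl : 1 ≤ j → W.Lam j = W'.Lam j) (b : F) : W.Perp j b ↔ W'.Perp j b := by
  rcases Nat.eq_zero_or_pos j with rfl | hj
  · rw [perp_zero h, perp_zero h', hF]
  · rw [perp_iff_lam h hj, perp_iff_lam h' hj, hl hj, hF]

/-! ### Character sums -/

private theorem char_sum (h : W.Ok) [Fintype W.Fs] {j : ℕ} {m : M} (hm : m ∈ W.Z j) :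
    ∑ b : W.Fs, sgR (W.P m (W.c b)) =
      open Classical in if W.ev m = 0 then (Nat.card W.Fs : ℝ) else 0 := by
  classical
  split_ifs with h0
  · have : ∀ b : W.Fs, W.P m (W.c b) = 0 := fun b => by
      rw [← ev_of_mem b.2, h0]; rfl
    simp [this, sgR_zero]
  · obtain ⟨b0, hb0⟩ : ∃ b0 : W.Fs, W.P m (W.c b0) ≠ 0 := by
      by_contra hcon
      push Not at hcon
      apply h0
      funext b
      by_cases hb : b ∈ W.Fs
      · rw [ev_of_mem hb]
        exact hcon ⟨b, hb⟩
      · rw [ev_of_notMem hb]; rfl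
    have h1 : W.P m (W.c b0) = 1 := by
      have : ∀ x : ZMod 2, x ≠ 0 → x = 1 := by decide
      exact this _ hb0
    have h2 : ∑ b : W.Fs, sgR (W.P m (W.c b)) =
        ∑ b : W.Fs, sgR (W.P m (W.c ((b + b0 : W.Fs) : F))) :=
      (Fintype.sum_equiv (Equiv.addRight b0) _ _ (fun _ => rfl)).symm
    have h3 : ∑ b : W.Fs, sgR (W.P m (W.c ((b + b0 : W.Fs) : F))) =
        -∑ b : W.Fs, sgR (W.P m (W.c b)) := by
      rw [← Finset.sum_neg_distrib]
      refine Finset.sum_congr rfl fun b _ => ?_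
      rw [Submodule.coe_add, P_add_right h hm b.2 b0.2, sgR_add, h1, sgR_one, mul_neg_one]
    linarith

/-! ### Doubling -/

private noncomputable def dsplit (h : W.Ok) (j : ℕ) :
    W.Z (j + 1) ≃ {m : W.Z j // W.ev m = 0} × W.Fs := by
  have hex : ∀ m : {m : W.Z j // W.ev m = 0},
      ∃ m' ∈ W.Z (j + 1), (2 : ℕ) • m' = (m.1 : M) := fun m => (ev_eq_zero_iff h m.1.2).1 m.2
  choose g hg hg2 using hex
  let D : W.Z (j + 1) → {m : W.Z j // W.ev m = 0} := fun m =>
    ⟨⟨(2 : ℕ) • (m : M), dbl_mem h m.2⟩, (ev_eq_zero_iff h (dbl_mem h m.2)).2 ⟨m, m.2, rfl⟩⟩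
  have hdiff : ∀ m : W.Z (j + 1), ∃ a : W.Fs, W.c a = (m : M) - g (D m) := by
    intro m
    obtain ⟨a, ha, e⟩ := (h.crange _).1
      (low_mem h (i := 1) (AddSubgroup.sub_mem _ m.2 (hg (D m))) (by
        rw [pow_one, smul_sub, hg2, sub_self]))
    exact ⟨⟨a, ha⟩, e⟩
  choose e he using hdiff
  refine
    { toFun := fun m => (D m, e m)
      invFun := fun p => ⟨g p.1 + W.c p.2, AddSubgroup.add_mem _ (hg _)
        (Zmono h (Nat.succ_le_succ (Nat.zero_le _)) (cmem h p.2.2))⟩
      left_inv := fun m => ?_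
      right_inv := fun p => ?_ }
  · apply Subtype.ext
    simp only [he]
    abel
  · obtain ⟨m, a⟩ := p
    have h1 : D ⟨g m + W.c a, AddSubgroup.add_mem _ (hg _)
        (Zmono h (Nat.succ_le_succ (Nat.zero_le _)) (cmem h a.2))⟩ = m := by
      apply Subtype.ext
      apply Subtype.ext
      change (2 : ℕ) • (g m + W.c a) = _
      rw [smul_add, hg2, c_two h, add_zero]
    ext1
    · exact h1
    · apply Subtype.ext
      apply h.cinj
      rw [he]
      simp only [h1]
      abel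

theorem card_sum (h : W.Ok) [Fintype W.Fs] (j : ℕ) [Fintype (W.Z j)] :
    (Nat.card (W.Z (j + 1)) : ℝ) = ∑ m : W.Z j, ∑ b : W.Fs, sgR (W.P m (W.c b)) := by
  classical
  have h1 : ∀ m : W.Z j, ∑ b : W.Fs, sgR (W.P m (W.c b)) =
      if W.ev m = 0 then (Nat.card W.Fs : ℝ) else 0 := fun m => char_sum h m.2
  rw [Finset.sum_congr rfl fun m _ => h1 m, ← Finset.sum_filter, Finset.sum_const, nsmul_eq_mul,
    Nat.card_congr (dsplit h j), Nat.card_prod, Nat.card_eq_fintype_card (α := {m : W.Z j // _}),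
    Fintype.card_subtype]
  push_cast
  rfl

private theorem sum_split (h : W.Ok) (j : ℕ) [Fintype (W.Z (j + 1))] [Fintype (W.Z j)]
    [Fintype (W.L (j + 1))] (f : M → ℝ) :
    ∑ m : W.Z (j + 1), f m = ∑ a : W.L (j + 1), ∑ m : W.Z j, f (rep W j a + m) := by
  rw [← Fintype.sum_prod_type' (f := fun (a : W.L (j + 1)) (m : W.Z j) => f (rep W j a + m))]
  exact (Fintype.sum_equiv (split h j).symm _ _ fun p => rfl).symm

private theorem perp_sum (h : W.Ok) (j : ℕ) [Fintype (W.Z j)] (b : W.Fs) :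
    ∑ m : W.Z j, sgR (W.P m (W.c b)) =
      open Classical in if W.Perp j b then (Nat.card (W.Z j) : ℝ) else 0 := by
  classical
  split_ifs with h0
  · have : ∀ m : W.Z j, sgR (W.P m (W.c b)) = 1 := fun m => by rw [h0.2 m m.2, sgR_zero]
    simp [this]
  · unfold Perp at h0
    push Not at h0
    obtain ⟨m0, hm0, hb0⟩ := h0 b.2
    have h1 : W.P m0 (W.c b) = 1 := by
      have : ∀ x : ZMod 2, x ≠ 0 → x = 1 := by decide
      exact this _ hb0
    have h2 : ∑ m : W.Z j, sgR (W.P m (W.c b)) =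
        ∑ m : W.Z j, sgR (W.P ((m + ⟨m0, hm0⟩ : W.Z j) : M) (W.c b)) :=
      (Fintype.sum_equiv (Equiv.addRight (⟨m0, hm0⟩ : W.Z j)) _ _ (fun _ => rfl)).symm
    have h3 : ∑ m : W.Z j, sgR (W.P ((m + ⟨m0, hm0⟩ : W.Z j) : M) (W.c b)) =
        -∑ m : W.Z j, sgR (W.P m (W.c b)) := by
      rw [← Finset.sum_neg_distrib]
      refine Finset.sum_congr rfl fun m _ => ?_
      rw [AddSubgroup.coe_add, h.addl j _ m.2 _ hm0 _ (cmem h b.2), sgR_add, h1, sgR_one,
        mul_neg_one]
    linarith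

/-- The contribution of one `a` not in `Kp` (the fibre sum). -/
private theorem fibre (h : W.Ok) [Fintype W.Fs] (i : ℕ) [Fintype (W.Z i)] (a : W.L (i + 1)) :
    ∑ m : W.Z i, ∑ b : W.Fs, sgR (W.P (rep W i a + m) (W.c b)) =
      open Classical in
      ∑ b : W.Fs, if W.Perp i b then (Nat.card (W.Z i) : ℝ) * sgR (W.Fab (i + 1) a b) else 0 := by
  classical
  rw [Finset.sum_comm]
  refine Finset.sum_congr rfl fun b _ => ?_
  have h1 : ∀ m : W.Z i, sgR (W.P (rep W i a + m) (W.c b)) =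
      sgR (W.P (rep W i a) (W.c b)) * sgR (W.P m (W.c b)) := fun m => by
    rw [h.addl (i + 1) _ (rep_mem W i a) _ (h.mono _ m.2) _ (cmem h b.2), sgR_add]
  rw [Finset.sum_congr rfl fun m _ => h1 m, ← Finset.mul_sum, perp_sum h i b]
  split_ifs with h0
  · rw [fab_eq h (Nat.succ_le_succ (Nat.zero_le i)) (by simpa using h0) (rep_mem W i a)
      (by simpa using rep_code W i a), mul_comm]
  · rw [mul_zero]

private theorem kap_fibre (h : W.Ok) [Fintype W.Fs] (i : ℕ) [Fintype (W.Z i)] (a : W.L (i + 1))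
    (ha : a.1 ∈ W.Kp) :
    ∑ m : W.Z i, ∑ b : W.Fs, sgR (W.P (rep W i a + m) (W.c b)) =
      (Nat.card (W.Z (i + 1)) : ℝ) := by
  classical
  obtain ⟨t, ht, hz, e⟩ := exists_tors h (Nat.succ_le_succ (Nat.zero_le i)) ha
  rw [Nat.succ_eq_add_one, Nat.add_sub_cancel] at e
  have hd : rep W i a - t ∈ W.Z i := by
    refine h.low _ _ (AddSubgroup.sub_mem _ (rep_mem W i a) hz) ?_
    rw [smul_sub, rep_code, e, sub_self]
  rw [card_sum h i]
  refine Fintype.sum_equiv (Equiv.addLeft (⟨rep W i a - t, hd⟩ : W.Z i)) _ _ fun m => ?_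
  refine Finset.sum_congr rfl fun b _ => ?_
  congr 1
  have e2 : rep W i a + m = t + ((⟨rep W i a - t, hd⟩ + m : W.Z i) : M) := by
    change rep W i a + (m : M) = t + (rep W i a - t + m)
    rw [← add_assoc, add_sub_cancel]
  rw [e2, h.addl (i + 1) _ hz _ (h.mono _ (Subtype.coe_prop _)) _ (cmem h b.2),
    P_tors h ht (cmem h b.2), zero_add]
  rfl

private theorem Ind_count (W : Tower F M) [Finite F] [Fintype W.Fs] {a : F} :
    open Classical in
    (Finset.univ.filter fun b : W.Fs => (b : F) ∈ W.Kp ∨ (b : F) + a ∈ W.Kp).card ≤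
      2 * Nat.card W.Kp := by
  classical
  rw [Finset.filter_or]
  refine (Finset.card_union_le _ _).trans ?_
  rw [two_mul]
  refine Nat.add_le_add ?_ ?_
  · rw [← Fintype.card_subtype, ← Nat.card_eq_fintype_card]
    refine Nat.card_le_card_of_injective
      (fun x : {b : W.Fs // (b : F) ∈ W.Kp} => (⟨x.1.1, x.2⟩ : W.Kp)) ?_
    intro x y hxy
    have e : x.1.1 = y.1.1 := congrArg (fun z : W.Kp => (z : F)) hxy
    exact Subtype.ext (Subtype.ext e)
  · rw [← Fintype.card_subtype, ← Nat.card_eq_fintype_card]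
    refine Nat.card_le_card_of_injective
      (fun x : {b : W.Fs // (b : F) + a ∈ W.Kp} => (⟨x.1.1 + a, x.2⟩ : W.Kp)) ?_
    intro x y hxy
    have e : x.1.1 + a = y.1.1 + a := congrArg (fun z : W.Kp => (z : F)) hxy
    exact Subtype.ext (Subtype.ext (add_right_cancel e))

/-- THE RECURSION, general form. -/
theorem recursionK (h : W.Ok) [Fintype F] {j : ℕ} (hj : 1 ≤ j) {K : ℕ}
    (hK : Nat.card W.Kp ≤ K) :
    (Nat.card (W.Z (j + 1)) : ℝ) ≤ 3 * K * Nat.card (W.Z j) +
      Nat.card (W.Z (j - 1)) * open Classical in ∑ a : F, ∑ b : F,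
        if a ∈ W.L j ∧ W.Ind a b ∧ W.Perp (j - 1) b then sgR (W.Fab j a b) else 0 := by
  classical
  obtain ⟨i, rfl⟩ := Nat.exists_eq_add_of_le' hj
  simp only [Nat.add_sub_cancel]
  have := finite_Z h i
  have := finite_Z h (i + 1)
  let _ : Fintype (W.Z i) := Fintype.ofFinite _
  let _ : Fintype (W.Z (i + 1)) := Fintype.ofFinite _
  let _ : Fintype W.Fs := Fintype.ofFinite _
  set N : ℝ := (Nat.card (W.Z i) : ℝ) with hN
  have hN0 : 0 ≤ N := Nat.cast_nonneg _
  rw [card_sum h (i + 1), sum_split h i (fun m => ∑ b : W.Fs, sgR (W.P m (W.c b)))]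
  set G : F → F → ℝ := fun a b => if W.Ind a b ∧ W.Perp i b then sgR (W.Fab (i + 1) a b) else 0
    with hG
  have habs : ∀ x, |sgR x| ≤ 1 := by
    intro x; unfold sgR; split_ifs <;> simp
  -- the bound for one `a`
  have key : ∀ a : W.L (i + 1),
      ∑ m : W.Z i, ∑ b : W.Fs, sgR (W.P (rep W i a + m) (W.c b)) ≤
        (if a.1 ∈ W.Kp then (Nat.card (W.Z (i + 1)) : ℝ) else 0) + 2 * K * N +
          N * ∑ b : W.Fs, G a.1 b := by
    intro a
    by_cases ha : a.1 ∈ W.Kp
    · rw [kap_fibre h i a ha, if_pos ha]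
      have : ∀ b, G a.1 b = 0 := by
        intro b
        simp only [hG]
        rw [if_neg]
        rintro ⟨⟨h1, _⟩, _⟩
        exact h1 ha
      simp only [this, Finset.sum_const_zero, mul_zero]
      have : 0 ≤ 2 * (K : ℝ) * N := by positivity
      linarith
    · rw [fibre h i a, if_neg ha, zero_add, Finset.mul_sum]
      have h1 : ∀ b : W.Fs, (if W.Perp i b then N * sgR (W.Fab (i + 1) a b) else 0) ≤
          (if (b : F) ∈ W.Kp ∨ (b : F) + a.1 ∈ W.Kp then N else 0) + N * G a.1 b := by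
        intro b
        have hs := abs_le.1 (habs (W.Fab (i + 1) a b))
        by_cases hb : (b : F) ∈ W.Kp ∨ (b : F) + a.1 ∈ W.Kp
        · have hg : G a.1 b = 0 := by
            simp only [hG]
            rw [if_neg]
            rintro ⟨⟨_, h2, h3⟩, _⟩
            rcases hb with hb | hb
            · exact h2 hb
            · exact h3 hb
          rw [if_pos hb, hg, mul_zero, add_zero]
          split_ifs
          · nlinarith
          · exact hN0
        · rw [if_neg hb, zero_add]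
          push Not at hb
          have hI : W.Ind a.1 b := ⟨ha, hb.1, hb.2⟩
          by_cases hp : W.Perp i b
          · simp only [hG]
            rw [if_pos hp, if_pos ⟨hI, hp⟩]
          · simp only [hG]
            rw [if_neg hp, if_neg (fun hh => hp hh.2), mul_zero]
      refine (Finset.sum_le_sum fun b _ => h1 b).trans ?_
      rw [Finset.sum_add_distrib]
      gcongr
      rw [← Finset.sum_filter, Finset.sum_const, nsmul_eq_mul]
      have h2 := W.Ind_count (a := a.1)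
      have h3 : ((Finset.univ.filter fun b : W.Fs =>
          (b : F) ∈ W.Kp ∨ (b : F) + a.1 ∈ W.Kp).card : ℝ) ≤ 2 * K := by
        have : (Finset.univ.filter fun b : W.Fs =>
            (b : F) ∈ W.Kp ∨ (b : F) + a.1 ∈ W.Kp).card ≤ 2 * K := by
          refine le_trans ?_ (by omega : 2 * Nat.card W.Kp ≤ 2 * K)
          convert h2
        exact_mod_cast this
      nlinarith
  refine (Finset.sum_le_sum fun a _ => key a).trans ?_
  rw [Finset.sum_add_distrib, Finset.sum_add_distrib]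
  have c4 : ∑ a : W.L (i + 1), N * ∑ b : W.Fs, G a.1 b =
      N * ∑ a : W.L (i + 1), ∑ b : W.Fs, G a.1 b := (Finset.mul_sum _ _ _).symm
  rw [c4]
  have c1 : ∑ a : W.L (i + 1), (if a.1 ∈ W.Kp then (Nat.card (W.Z (i + 1)) : ℝ) else 0) ≤
      K * Nat.card (W.Z (i + 1)) := by
    rw [← Finset.sum_filter, Finset.sum_const, nsmul_eq_mul]
    have : (Finset.univ.filter fun a : W.L (i + 1) => a.1 ∈ W.Kp).card ≤ K := by
      refine le_trans ?_ hK
      rw [Nat.card_eq_fintype_card, ← Fintype.card_subtype]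
      refine Fintype.card_le_of_injective
        (fun x : {a : W.L (i + 1) // a.1 ∈ W.Kp} => (⟨x.1.1, x.2⟩ : W.Kp)) ?_
      intro x y hxy
      have e : x.1.1 = y.1.1 := congrArg (fun z : W.Kp => (z : F)) hxy
      exact Subtype.ext (Subtype.ext e)
    have h4 : ((Finset.univ.filter fun a : W.L (i + 1) => a.1 ∈ W.Kp).card : ℝ) ≤ K := by
      exact_mod_cast this
    exact mul_le_mul_of_nonneg_right h4 (Nat.cast_nonneg _)
  have c2 : ∑ _a : W.L (i + 1), 2 * K * N = 2 * K * Nat.card (W.Z (i + 1)) := by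
    rw [Finset.sum_const, nsmul_eq_mul, card_Z_succ h i, Finset.card_univ,
      ← Nat.card_eq_fintype_card]
    push_cast
    ring
  have c3 : ∑ a : W.L (i + 1), ∑ b : W.Fs, G a.1 b = ∑ a : F, ∑ b : F,
      if a ∈ W.L (i + 1) ∧ W.Ind a b ∧ W.Perp i b then sgR (W.Fab (i + 1) a b) else 0 := by
    have e1 : ∀ a : F, ∑ b : W.Fs, G a b = ∑ b : F, G a b := by
      intro a
      rw [← Finset.sum_subtype (Finset.univ.filter fun b : F => b ∈ W.Fs)
        (fun b => by simp) (fun b => G a b)]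
      refine Finset.sum_subset (Finset.filter_subset _ _) fun b _ hb => ?_
      simp only [hG]
      rw [if_neg]
      rintro ⟨_, hp⟩
      exact hb (by simpa using hp.1)
    have : ∀ a : F, ∑ b : F, (if a ∈ W.L (i + 1) ∧ W.Ind a b ∧ W.Perp i b then
        sgR (W.Fab (i + 1) a b) else 0) = if a ∈ W.L (i + 1) then ∑ b : F, G a b else 0 := by
      intro a
      by_cases ha : a ∈ W.L (i + 1)
      · simp [ha, hG]
      · simp [ha]
    rw [Finset.sum_congr rfl fun a _ => this a, ← Finset.sum_filter]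
    rw [Finset.sum_congr rfl fun a _ => e1 a.1]
    exact (Finset.sum_subtype (Finset.univ.filter fun a : F => a ∈ W.L (i + 1))
      (fun a => by simp) fun a => ∑ b : F, G a b).symm
  rw [c2, c3]
  linarith

/-- THE RECURSION. -/
theorem recursion (h : W.Ok) [Fintype F] {j : ℕ} (hj : 1 ≤ j) (hK : Nat.card W.Kp ≤ 4) :
    (Nat.card (W.Z (j + 1)) : ℝ) ≤ 12 * Nat.card (W.Z j) +
      Nat.card (W.Z (j - 1)) * open Classical in ∑ a : F, ∑ b : F,
        if a ∈ W.L j ∧ W.Ind a b ∧ W.Perp (j - 1) b then sgR (W.Fab j a b) else 0 := by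
  refine (recursionK h hj hK).trans (le_of_eq ?_)
  congr 2
  norm_num

end Tower

end Pool.Agent.Sm
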