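import Pool.Agent.Lib.Sm.G.Lift

/-!
# SMITH block G, module CT (G5): the Cassels-Tate pairing
-/

set_option autoImplicit false

namespace Pool.Agent.Sm

variable {G V Pl : Type*} [Group G] [AddCommGroup V] [DistribMulAction G V]

namespace Sys

variable {S : Sys G V Pl}

theorem sy_add_left (v : Pl) (x y z : V1 × V1) :
    S.sy v (x + y) z = S.sy v x z + S.sy v y z := sym_add_left _ _ _ _

theorem sy_add_right (v : Pl) (x y z : V1 × V1) :
    S.sy v x (y + z) = S.sy v x y + S.sy v x z := sym_add_right _ _ _ _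

theorem sy_zero_left (v : Pl) (x : V1 × V1) : S.sy v 0 x = 0 := sym_zero_left _ _

theorem sy_zero_right (v : Pl) (x : V1 × V1) : S.sy v x 0 = 0 := sym_zero_right _ _

theorem loc_add (v : Pl) (b b' : G → V1) : S.loc v (b + b') = S.loc v b + S.loc v b' := rfl

theorem loc_zero (v : Pl) : S.loc v (0 : G → V1) = 0 := rfl

theorem HomG.add (h : S.Ok) {A : Type*} [AddCommGroup A] {b b' : G → A} (hb : S.HomG b)
    (hb' : S.HomG b') : S.HomG (b + b') := by
  refine ⟨TF.comp₂ h hb.1 hb'.1 (fun x y => x + y), fun s t => ?_⟩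
  simp only [Pi.add_apply, hb.2 s t, hb'.2 s t]
  abel

theorem HomG.zero (h : S.Ok) {A : Type*} [AddCommGroup A] : S.HomG (0 : G → A) :=
  ⟨TF_const h 0, fun _ _ => (add_zero 0).symm⟩

theorem IsSel1.add (h : S.Ok) {chi : G → ZMod 2} {b b' : G → V1} (hb : S.IsSel1 chi b)
    (hb' : S.IsSel1 chi b') : S.IsSel1 chi (b + b') :=
  ⟨hb.1.add h hb'.1, fun v => (S.W chi v).add_mem (hb.2 v) (hb'.2 v)⟩

theorem IsSel1.zero (h : S.Ok) (chi : G → ZMod 2) : S.IsSel1 chi (0 : G → V1) :=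
  ⟨HomG.zero h, fun v => (S.W chi v).zero_mem⟩

namespace LiftData

variable {chi : G → ZMod 2} {Psi hat : G → V} {Q : Pl → V}

/-- The local difference is killed by 2. -/
theorem two_sub (hd : S.LiftData chi Psi hat Q) (v : Pl) {s : G} (hs : s ∈ S.D v) :
    (2 : ℕ) • (hat s - dl chi (Q v) s) = 0 := by
  rw [smul_sub, hd.two, hd.loc v s hs, sub_self]

theorem iota_xi1 (h : S.Ok) (hd : S.LiftData chi Psi hat Q) (v : Pl) :
    S.iota (S.xi chi hat Q v).1 = hat (S.sg v) - dl chi (Q v) (S.sg v) :=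
  iota_un h (hd.two_sub v (h.sg_mem v))

theorem iota_xi2 (h : S.Ok) (hd : S.LiftData chi Psi hat Q) (v : Pl) :
    S.iota (S.xi chi hat Q v).2 = hat (S.phi v) - dl chi (Q v) (S.phi v) :=
  iota_un h (hd.two_sub v (h.phi_mem v))

/-- `xi` is unramified at almost all places. -/
theorem fin (h : S.Ok) (hchi : S.HomG chi) (hd : S.LiftData chi Psi hat Q) :
    {v | (S.xi chi hat Q v).1 ≠ 0}.Finite := by
  refine ((bad_fin h hchi).union (coc_fin h hchi hd.tf hd.coc)).subset fun v hv => ?_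
  by_cases hg : v ∈ S.good ∧ chi (S.sg v) = 0
  · refine Or.inr fun h0 => hv ?_
    rw [← iota_eq_zero h, hd.iota_xi1 h, h0, dl_sg_zero h hg.1 hg.2, sub_zero]
  · exact Or.inl hg

/-- The summands of the Cassels-Tate pairing have finite support. -/
theorem supp (h : S.Ok) (hchi : S.HomG chi) (hd : S.LiftData chi Psi hat Q) {b : G → V1}
    (hb : S.HomG b) : {v | S.sy v (S.xi chi hat Q v) (S.loc v b) ≠ 0}.Finite := by
  refine ((hd.fin h hchi).union (HomG.fin h hb)).subset fun v hv => ?_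
  by_contra hc
  rw [Set.mem_union, not_or] at hc
  exact hv (sym_unr _ (not_not.mp hc.1) (not_not.mp hc.2))

theorem add (h : S.Ok) (hd : S.LiftData chi Psi hat Q) {Psi' hat' : G → V} {Q' : Pl → V}
    (hd' : S.LiftData chi Psi' hat' Q') :
    S.LiftData chi (Psi + Psi') (hat + hat') (Q + Q') where
  tf := TF.comp₂ h hd.tf hd'.tf (fun x y => x + y)
  coc := fun s t => by
    simp only [Pi.add_apply, hd.coc s t, hd'.coc s t, tw_add]; abel
  two := fun s => by simp only [Pi.add_apply, smul_add, hd.two, hd'.two]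
  loc := fun v s hs => by
    simp only [Pi.add_apply, dl_add, smul_add, hd.loc v s hs, hd'.loc v s hs]

theorem xi_add (h : S.Ok) (hd : S.LiftData chi Psi hat Q) {Psi' hat' : G → V} {Q' : Pl → V}
    (hd' : S.LiftData chi Psi' hat' Q') (v : Pl) :
    S.xi chi (hat + hat') (Q + Q') v = S.xi chi hat Q v + S.xi chi hat' Q' v := by
  refine Prod.ext (h.iota_inj ?_) (h.iota_inj ?_)
  · rw [(hd.add h hd').iota_xi1 h, Prod.fst_add, map_add, hd.iota_xi1 h, hd'.iota_xi1 h]
    simp only [Pi.add_apply, dl_add]; abel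
  · rw [(hd.add h hd').iota_xi2 h, Prod.snd_add, map_add, hd.iota_xi2 h, hd'.iota_xi2 h]
    simp only [Pi.add_apply, dl_add]; abel

end LiftData

theorem sy_supp (h : S.Ok) {c d : G → V1} (hc : S.HomG c) (hd : S.HomG d) :
    {v | S.sy v (S.loc v c) (S.loc v d) ≠ 0}.Finite := by
  refine ((HomG.fin h hc).union (HomG.fin h hd)).subset fun v hv => ?_
  by_contra hn
  rw [Set.mem_union, not_or] at hn
  exact hv (sym_unr _ (not_not.mp hn.1) (not_not.mp hn.2))

/-- The value of the sum does not depend on the data. -/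
theorem ct_indep (h : S.Ok) {chi : G → ZMod 2} (hchi : S.HomG chi) {Psi hat hat' : G → V}
    {Q Q' : Pl → V} (hd : S.LiftData chi Psi hat Q) (hd' : S.LiftData chi Psi hat' Q')
    {b : G → V1} (hb : S.IsSel1 chi b) :
    ∑ᶠ v, S.sy v (S.xi chi hat Q v) (S.loc v b) =
      ∑ᶠ v, S.sy v (S.xi chi hat' Q' v) (S.loc v b) := by
  -- the global difference
  have h2 : ∀ s, (2 : ℕ) • (hat s - hat' s) = 0 := fun s => by
    rw [smul_sub, hd.two, hd'.two, sub_self]
  set a : G → V1 := fun s => S.un (hat s - hat' s) with ha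
  have hia : ∀ s, S.iota (a s) = hat s - hat' s := fun s => iota_un h (h2 s)
  have haH : S.HomG a := by
    refine ⟨(TF.comp₂ h hd.tf hd'.tf (fun x y => S.un (x - y))), fun s t => h.iota_inj ?_⟩
    rw [map_add, hia, hia, hia, hd.coc, hd'.coc, ← tw_of_two h chi s (h2 t), tw_sub]
    abel
  -- the local difference
  have h3 : ∀ v, ∀ s ∈ S.D v, (2 : ℕ) • dl chi (Q v - Q' v) s = 0 := fun v s hs => by
    rw [dl_sub, smul_sub, ← hd.loc v s hs, ← hd'.loc v s hs, sub_self]
  have key : ∀ v, S.sy v (S.xi chi hat Q v) (S.loc v b) =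
      S.sy v (S.xi chi hat' Q' v) (S.loc v b) + S.sy v (S.loc v a) (S.loc v b) := by
    intro v
    set x : V1 × V1 := (S.un (dl chi (Q v - Q' v) (S.sg v)), S.un (dl chi (Q v - Q' v) (S.phi v)))
      with hx
    have hxW : x ∈ S.Wl chi v := ⟨Q v - Q' v, h3 v, (iota_un h (h3 v _ (h.sg_mem v))).symm,
      (iota_un h (h3 v _ (h.phi_mem v))).symm⟩
    have e : S.xi chi hat Q v + x = S.xi chi hat' Q' v + S.loc v a := by
      refine Prod.ext (h.iota_inj ?_) (h.iota_inj ?_)
      · rw [Prod.fst_add, Prod.fst_add, map_add, map_add, hd.iota_xi1 h, hd'.iota_xi1 h]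
        change _ + S.iota (S.un _) = _ + S.iota (a (S.sg v))
        rw [hia, iota_un h (h3 v _ (h.sg_mem v)), dl_sub]
        abel
      · rw [Prod.snd_add, Prod.snd_add, map_add, map_add, hd.iota_xi2 h, hd'.iota_xi2 h]
        change _ + S.iota (S.un _) = _ + S.iota (a (S.phi v))
        rw [hia, iota_un h (h3 v _ (h.phi_mem v)), dl_sub]
        abel
    rw [← sy_add_left, ← e, sy_add_left, h.isot chi hchi v x hxW _ (hb.2 v), add_zero]
  rw [finsum_congr key, finsum_add_distrib (hd'.supp h hchi hb.1) (sy_supp h haH hb.1),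
    h.recip a b haH hb.1, add_zero]

/-- The pairing can be computed with any data. -/
theorem CT_eq (h : S.Ok) {chi : G → ZMod 2} (hchi : S.HomG chi) {Psi hat : G → V} {Q : Pl → V}
    (hd : S.LiftData chi Psi hat Q) {b : G → V1} (hb : S.IsSel1 chi b) :
    S.CT chi Psi b = ∑ᶠ v, S.sy v (S.xi chi hat Q v) (S.loc v b) := by
  have hex : ∃ p : (G → V) × (Pl → V), S.LiftData chi Psi p.1 p.2 := ⟨(hat, Q), hd⟩
  rw [CT, dif_pos hex]
  exact ct_indep h hchi hex.choose_spec hd hb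

theorem CT_add_right (h : S.Ok) {chi : G → ZMod 2} (hchi : S.HomG chi) {Psi : G → V} {j : ℕ}
    (hP : S.IsSel chi j Psi) {b b' : G → V1} (hb : S.IsSel1 chi b) (hb' : S.IsSel1 chi b') :
    S.CT chi Psi (b + b') = S.CT chi Psi b + S.CT chi Psi b' := by
  obtain ⟨hat, Q, hd⟩ := exists_liftData h hchi hP
  rw [CT_eq h hchi hd hb, CT_eq h hchi hd hb', CT_eq h hchi hd (hb.add h hb'),
    ← finsum_add_distrib (hd.supp h hchi hb.1) (hd.supp h hchi hb'.1)]
  exact finsum_congr fun v => by rw [loc_add, sy_add_right]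

theorem CT_add_left (h : S.Ok) {chi : G → ZMod 2} (hchi : S.HomG chi) {Psi Psi' : G → V}
    {j j' : ℕ} (hP : S.IsSel chi j Psi) (hP' : S.IsSel chi j' Psi') {b : G → V1}
    (hb : S.IsSel1 chi b) :
    S.CT chi (Psi + Psi') b = S.CT chi Psi b + S.CT chi Psi' b := by
  obtain ⟨hat, Q, hd⟩ := exists_liftData h hchi hP
  obtain ⟨hat', Q', hd'⟩ := exists_liftData h hchi hP'
  rw [CT_eq h hchi hd hb, CT_eq h hchi hd' hb, CT_eq h hchi (hd.add h hd') hb,
    ← finsum_add_distrib (hd.supp h hchi hb.1) (hd'.supp h hchi hb.1)]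
  exact finsum_congr fun v => by rw [hd.xi_add h hd', sy_add_left]

theorem CT_zero_right (h : S.Ok) {chi : G → ZMod 2} (hchi : S.HomG chi) {Psi : G → V} {j : ℕ}
    (hP : S.IsSel chi j Psi) : S.CT chi Psi 0 = 0 := by
  have := CT_add_right h hchi hP (IsSel1.zero h chi) (IsSel1.zero h chi)
  rw [add_zero] at this
  exact left_eq_add.mp this

/-- If `Psi = 2 Phi` with `Phi` a locally trivial cocycle, then the pairing vanishes. -/
theorem CT_of_two (h : S.Ok) {chi : G → ZMod 2} (hchi : S.HomG chi) {Psi Phi : G → V} {j : ℕ}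
    (hP : S.IsSel chi j Phi) (h2 : ∀ s, (2 : ℕ) • Phi s = Psi s) {b : G → V1}
    (hb : S.IsSel1 chi b) : S.CT chi Psi b = 0 := by
  choose Q hQ using hP.loc
  have hd : S.LiftData chi Psi Phi Q :=
    ⟨hP.tf, hP.coc, h2, fun v s hs => by rw [← hQ v s hs, h2]⟩
  rw [CT_eq h hchi hd hb]
  have : ∀ v, S.sy v (S.xi chi Phi Q v) (S.loc v b) = 0 := fun v => by
    have hx : S.xi chi Phi Q v = 0 := by
      refine Prod.ext (h.iota_inj ?_) (h.iota_inj ?_)
      · rw [hd.iota_xi1 h, hQ v _ (h.sg_mem v), sub_self]; exact (map_zero _).symm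
      · rw [hd.iota_xi2 h, hQ v _ (h.phi_mem v), sub_self]; exact (map_zero _).symm
    rw [hx, sy_zero_left]
  rw [finsum_congr this, finsum_zero]

/-- A coboundary `dl chi z` is a Selmer cocycle. -/
theorem isSel_dl (h : S.Ok) {chi : G → ZMod 2} (hchi : S.HomG chi) {j : ℕ} {z : V}
    (hz : ∀ s, (2 : ℕ) ^ j • dl chi z s = 0) : S.IsSel chi j (dl chi z) :=
  ⟨dl_tf h hchi z, dl_mul hchi.2 z, hz, fun _ => ⟨z, fun _ _ => rfl⟩⟩

/-- The pairing vanishes on coboundaries. -/
theorem CT_dl (h : S.Ok) {chi : G → ZMod 2} (hchi : S.HomG chi) (z : V) {b : G → V1}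
    (hb : S.IsSel1 chi b) : S.CT chi (dl chi z) b = 0 := by
  obtain ⟨y, hy⟩ := h.half z
  obtain ⟨j, hj⟩ := h.tors y
  refine CT_of_two h hchi (Phi := dl chi y) (j := j) (isSel_dl h hchi fun s => ?_) (fun s => ?_) hb
  · rw [← dl_nsmul, hj, dl_zero]
  · rw [← dl_nsmul, hy]

end Sys

end Pool.Agent.Sm
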