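import Pool.Agent.Lib.Sm.G.Tw

/-!
# SMITH block G, module Gen: `D v` is topologically generated by `sg v` and `phi v`
-/

set_option autoImplicit false

namespace Pool.Agent.Sm

/-- In a finite 2-group a proper subgroup is contained in a subgroup of index 2. -/
theorem exists_index_two {M : Type*} [Group M] [Finite M] {r : ℕ} (hM : Nat.card M = 2 ^ r)
    (H : Subgroup M) (hH : H ≠ ⊤) : ∃ K : Subgroup M, H ≤ K ∧ K.index = 2 := by
  have : Fact (Nat.Prime 2) := ⟨Nat.prime_two⟩
  have hp : IsPGroup 2 M := IsPGroup.of_card hM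
  have := hp.isNilpotent
  obtain ⟨K, hK, hHK⟩ := (eq_top_or_exists_le_coatom H).resolve_left hH
  have : K.Normal := Subgroup.NormalizerCondition.normal_of_coatom K Group.normalizerCondition_of_isNilpotent hK
  refine ⟨K, hHK, ?_⟩
  have : Nontrivial (M ⧸ K) := by
    rw [← Finite.one_lt_card_iff_nontrivial]
    have h1 : K.index ≠ 1 := fun he => hK.1 (Subgroup.index_eq_one.mp he)
    have h0 : K.index ≠ 0 := Subgroup.FiniteIndex.index_ne_zero
    have : K.index = Nat.card (M ⧸ K) := rfl
    omega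
  have hq : IsPGroup 2 (M ⧸ K) := hp.to_quotient K
  obtain ⟨n, hn⟩ := IsPGroup.iff_card.mp hq
  have hn0 : n ≠ 0 := by
    rintro rfl
    rw [pow_zero] at hn
    have := Finite.one_lt_card (α := M ⧸ K)
    omega
  have h2 : 2 ∣ Nat.card (M ⧸ K) := by rw [hn]; exact dvd_pow_self 2 hn0
  obtain ⟨g, hg⟩ := exists_prime_orderOf_dvd_card' 2 h2
  have hz : (Subgroup.zpowers g).comap (QuotientGroup.mk' K) = ⊤ := by
    refine hK.2 _ (lt_of_le_of_ne ?_ ?_)
    · intro x hx
      rw [Subgroup.mem_comap, QuotientGroup.mk'_apply, (QuotientGroup.eq_one_iff x).mpr hx]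
      exact one_mem _
    · intro he
      obtain ⟨x, hx⟩ := QuotientGroup.mk'_surjective K g
      have hxK : x ∈ K := by
        rw [he, Subgroup.mem_comap, hx]
        exact Subgroup.mem_zpowers g
      rw [QuotientGroup.mk'_apply, (QuotientGroup.eq_one_iff x).mpr hxK] at hx
      rw [← hx, orderOf_one] at hg
      omega
  have hz2 : Subgroup.zpowers g = ⊤ := by
    rw [eq_top_iff]
    intro y _
    obtain ⟨x, hx⟩ := QuotientGroup.mk'_surjective K y
    have : x ∈ (Subgroup.zpowers g).comap (QuotientGroup.mk' K) := by rw [hz]; trivial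
    rw [Subgroup.mem_comap, hx] at this
    exact this
  rw [Subgroup.index, ← Subgroup.card_top (G := M ⧸ K), ← hz2, Nat.card_zpowers, hg]

/-- A proper subgroup containing a normal subgroup of 2-power index is contained in a subgroup of
index 2. -/
theorem exists_index_two' {Γ : Type*} [Group Γ] {r : ℕ} (N L : Subgroup Γ) [N.Normal]
    (hN : N.index = 2 ^ r) (hNL : N ≤ L) (hL : L ≠ ⊤) : ∃ K : Subgroup Γ, L ≤ K ∧ K.index = 2 := by
  have : N.FiniteIndex := ⟨by rw [hN]; positivity⟩
  obtain ⟨K, hK, hK2⟩ := exists_index_two (M := Γ ⧸ N) (r := r) hN (L.map (QuotientGroup.mk' N)) (by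
    intro he
    apply hL
    rw [eq_top_iff]
    intro x _
    have : QuotientGroup.mk' N x ∈ L.map (QuotientGroup.mk' N) := by rw [he]; trivial
    obtain ⟨y, hy, hxy⟩ := this
    have : y⁻¹ * x ∈ N := QuotientGroup.eq.mp hxy
    have := L.mul_mem hy (hNL this)
    rwa [mul_inv_cancel_left] at this)
  refine ⟨K.comap (QuotientGroup.mk' N), Subgroup.map_le_iff_le_comap.mp hK, ?_⟩
  rw [Subgroup.index_comap_of_surjective _ (QuotientGroup.mk'_surjective N), hK2]

variable {G V Pl : Type*} [Group G] [AddCommGroup V] [DistribMulAction G V]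

namespace Sys

variable {S : Sys G V Pl}

/-- `D v` is generated by `phi v` and `sg v` modulo every `N`. -/
theorem gen (h : S.Ok) (v : Pl) {N : Subgroup G} (hN : N ∈ S.NN) {s : G} (hs : s ∈ S.D v) :
    ∃ t ∈ Subgroup.closure {S.phi v, S.sg v}, t⁻¹ * s ∈ N := by
  classical
  have := h.normal N hN
  obtain ⟨r, hr⟩ := h.two_pow N hN
  set N0 : Subgroup (S.D v) := N.subgroupOf (S.D v) with hN0
  set L : Subgroup (S.D v) := (Subgroup.closure {S.phi v, S.sg v}).subgroupOf (S.D v) ⊔ N0 with hL
  have hcl : Subgroup.closure {S.phi v, S.sg v} ≤ S.D v := by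
    rw [Subgroup.closure_le]
    rintro x (rfl | rfl)
    · exact h.phi_mem v
    · exact h.sg_mem v
  have key : L = ⊤ := by
    by_contra hne
    have : N0.Normal := inferInstance
    have hidx : N0.index ∣ 2 ^ r := by
      rw [← hr]
      exact Subgroup.relIndex_dvd_index_of_normal N (S.D v)
    obtain ⟨m, _, hm⟩ := (Nat.dvd_prime_pow Nat.prime_two).mp hidx
    obtain ⟨K, hLK, hK2⟩ := exists_index_two' N0 L hm le_sup_right hne
    let c : G → ZMod 2 := fun s => if hs : s ∈ S.D v then (if (⟨s, hs⟩ : S.D v) ∈ K then 0 else 1)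
      else 0
    have hc : ∀ (s : G) (hs : s ∈ S.D v), c s = if (⟨s, hs⟩ : S.D v) ∈ K then 0 else 1 := by
      intro s hs; simp only [c, hs, dite_true]
    have hadd : ∀ s ∈ S.D v, ∀ t ∈ S.D v, c (s * t) = c s + c t := by
      intro s hs t ht
      rw [hc s hs, hc t ht, hc (s * t) ((S.D v).mul_mem hs ht)]
      have := Subgroup.mul_mem_iff_of_index_two hK2 (a := (⟨s, hs⟩ : S.D v)) (b := ⟨t, ht⟩)
      have e : (⟨s * t, (S.D v).mul_mem hs ht⟩ : S.D v) = ⟨s, hs⟩ * ⟨t, ht⟩ := rfl
      rw [e]
      by_cases h1 : (⟨s, hs⟩ : S.D v) ∈ K <;> by_cases h2 : (⟨t, ht⟩ : S.D v) ∈ K <;>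
        simp only [this, h1, h2, if_true, if_false, iff_self, iff_false, false_iff, not_true,
          not_false_iff, iff_true] <;> decide
    have htf : S.TFOn (S.D v) c := by
      refine ⟨N, hN, fun s hs n hn hnD => ?_⟩
      rw [hadd s hs n hnD, hc n hnD, if_pos (hLK (Subgroup.mem_sup_right ?_)), add_zero]
      rw [hN0, Subgroup.mem_subgroupOf]
      exact hn
    have h0 : ∀ x ∈ Subgroup.closure {S.phi v, S.sg v}, c x = 0 := by
      intro x hx
      rw [hc x (hcl hx), if_pos]
      apply hLK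
      apply Subgroup.mem_sup_left
      rw [Subgroup.mem_subgroupOf]
      exact hx
    have hall := h.homD v c htf hadd (h0 _ (Subgroup.subset_closure (by simp)))
      (h0 _ (Subgroup.subset_closure (by simp)))
    have : K = ⊤ := by
      rw [eq_top_iff]
      rintro ⟨x, hx⟩ _
      have := hall x hx
      rw [hc x hx] at this
      by_contra hxK
      rw [if_neg hxK] at this
      exact one_ne_zero this
    rw [this, Subgroup.index_top] at hK2
    omega
  have hsL : (⟨s, hs⟩ : S.D v) ∈ L := by rw [key]; trivial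
  obtain ⟨t, ht, n, hn, htn⟩ := (Subgroup.mem_sup_of_normal_right).mp hsL
  refine ⟨t.1, Subgroup.mem_subgroupOf.mp ht, ?_⟩
  have : t.1 * n.1 = s := congrArg Subtype.val htn
  rw [← this, inv_mul_cancel_left]
  exact Subgroup.mem_subgroupOf.mp hn

/-- A 2-finite twisted cocycle on `D v` which vanishes at `phi v` and `sg v` is zero. -/
theorem cocD_zero (h : S.Ok) {chi : G → ZMod 2} (hchi : S.HomG chi) (v : Pl) {c : G → V}
    (hc : S.CocD chi v c) (h1 : c (S.sg v) = 0) (h2 : c (S.phi v) = 0) :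
    ∀ s ∈ S.D v, c s = 0 := by
  have hcl : Subgroup.closure {S.phi v, S.sg v} ≤ S.D v := by
    rw [Subgroup.closure_le]
    rintro x (rfl | rfl)
    · exact h.phi_mem v
    · exact h.sg_mem v
  have hone : c 1 = 0 := by
    have := hc.coc 1 (one_mem _) 1 (one_mem _)
    rw [one_mul, tw_one hchi.2] at this
    exact left_eq_add.mp this
  have hz : ∀ x ∈ Subgroup.closure {S.phi v, S.sg v}, c x = 0 := by
    intro x hx
    refine Subgroup.closure_induction (p := fun x _ => c x = 0) ?_ hone ?_ ?_ hx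
    · rintro y (rfl | rfl)
      · exact h2
      · exact h1
    · intro a b ha hb ha' hb'
      rw [hc.coc a (hcl ha) b (hcl hb), ha', hb', tw_zero, add_zero]
    · intro a ha ha'
      have := hc.coc a⁻¹ ((S.D v).inv_mem (hcl ha)) a (hcl ha)
      rw [inv_mul_cancel, hone, ha', tw_zero, add_zero] at this
      exact this.symm
  intro s hs
  obtain ⟨N, hN, hNc⟩ := hc.tf
  obtain ⟨t, ht, hts⟩ := gen h v hN hs
  have := hNc t (hcl ht) (t⁻¹ * s) hts ((S.D v).mul_mem ((S.D v).inv_mem (hcl ht)) hs)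
  rw [mul_inv_cancel_left] at this
  rw [this, hz t ht]

/-- A 2-finite twisted cocycle on `D v` is determined by its values at `sg v` and `phi v`. -/
theorem cocD_ext (h : S.Ok) {chi : G → ZMod 2} (hchi : S.HomG chi) (v : Pl) {c c' : G → V}
    (hc : S.CocD chi v c) (hc' : S.CocD chi v c') (h1 : c (S.sg v) = c' (S.sg v))
    (h2 : c (S.phi v) = c' (S.phi v)) : ∀ s ∈ S.D v, c s = c' s := by
  have hd : S.CocD chi v (fun s => c s - c' s) := by
    refine ⟨TFOn.comp₂ h hc.tf hc'.tf (fun a b => a - b), fun s hs t ht => ?_⟩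
    simp only [hc.coc s hs t ht, hc'.coc s hs t ht, tw_sub]
    abel
  intro s hs
  have := cocD_zero h hchi v hd (by simp [h1]) (by simp [h2]) s hs
  exact sub_eq_zero.mp this

end Sys

end Pool.Agent.Sm
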