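import Pool.Agent.Lib.Sm.G.CTDefs

/-!
# SMITH block G, module Kum (G1): the local Kummer groups
-/

set_option autoImplicit false

namespace Pool.Agent.Sm

variable {G V Pl : Type*} [Group G] [AddCommGroup V] [DistribMulAction G V]

namespace Sys

variable {S : Sys G V Pl}

/-- The local Kummer group as a subgroup. -/
noncomputable def W (S : Sys G V Pl) (chi : G → ZMod 2) (v : Pl) : AddSubgroup (V1 × V1) where
  carrier := S.Wl chi v
  zero_mem' := ⟨0, fun s _ => by rw [dl_zero, smul_zero], by simp [dl_zero], by simp [dl_zero]⟩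
  add_mem' := by
    rintro x y ⟨Q, hQ, h1, h2⟩ ⟨R, hR, h3, h4⟩
    refine ⟨Q + R, fun s hs => ?_, ?_, ?_⟩
    · rw [dl_add, smul_add, hQ s hs, hR s hs, add_zero]
    · rw [dl_add, h1, h3, Prod.fst_add, map_add]
    · rw [dl_add, h2, h4, Prod.snd_add, map_add]
  neg_mem' := by
    rintro x ⟨Q, hQ, h1, h2⟩
    refine ⟨-Q, fun s hs => ?_, ?_, ?_⟩
    · rw [dl_neg, smul_neg, hQ s hs, neg_zero]
    · rw [dl_neg, h1, Prod.fst_neg, map_neg]
    · rw [dl_neg, h2, Prod.snd_neg, map_neg]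

theorem mem_W {chi : G → ZMod 2} {v : Pl} {x : V1 × V1} : x ∈ S.W chi v ↔ x ∈ S.Wl chi v := Iff.rfl

/-- The points invariant under `D v`. -/
def Mv (S : Sys G V Pl) (chi : G → ZMod 2) (v : Pl) : AddSubgroup V where
  carrier := {Q | ∀ s ∈ S.D v, dl chi Q s = 0}
  zero_mem' := fun s _ => dl_zero chi s
  add_mem' := by
    intro Q R hQ hR s hs
    rw [dl_add, hQ s hs, hR s hs, add_zero]
  neg_mem' := by
    intro Q hQ s hs
    rw [dl_neg, hQ s hs, neg_zero]

/-- The points whose coboundary on `D v` is killed by 2. -/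
def Pv (S : Sys G V Pl) (chi : G → ZMod 2) (v : Pl) : AddSubgroup V where
  carrier := {Q | ∀ s ∈ S.D v, (2 : ℕ) • dl chi Q s = 0}
  zero_mem' := fun s _ => by rw [dl_zero, smul_zero]
  add_mem' := by
    intro Q R hQ hR s hs
    rw [dl_add, smul_add, hQ s hs, hR s hs, add_zero]
  neg_mem' := by
    intro Q hQ s hs
    rw [dl_neg, smul_neg, hQ s hs, neg_zero]

theorem mem_Mv {chi : G → ZMod 2} {v : Pl} {Q : V} :
    Q ∈ S.Mv chi v ↔ ∀ s ∈ S.D v, dl chi Q s = 0 := Iff.rfl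

theorem mem_Pv {chi : G → ZMod 2} {v : Pl} {Q : V} :
    Q ∈ S.Pv chi v ↔ ∀ s ∈ S.D v, (2 : ℕ) • dl chi Q s = 0 := Iff.rfl

/-- `Q ↦` the pair of values of its coboundary. -/
noncomputable def pvHom (h : S.Ok) (chi : G → ZMod 2) (v : Pl) : S.Pv chi v →+ V1 × V1 where
  toFun Q := (S.un (dl chi Q.1 (S.sg v)), S.un (dl chi Q.1 (S.phi v)))
  map_zero' := by
    simp only [ZeroMemClass.coe_zero, dl_zero, un_zero h]
    rfl
  map_add' := by
    rintro ⟨Q, hQ⟩ ⟨R, hR⟩
    have hs := h.sg_mem v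
    have hp := h.phi_mem v
    simp only [AddMemClass.mk_add_mk, dl_add, Prod.mk_add_mk]
    rw [un_add h (hQ _ hs) (hR _ hs), un_add h (hQ _ hp) (hR _ hp)]

theorem pvHom_range (h : S.Ok) (chi : G → ZMod 2) (v : Pl) :
    (pvHom h chi v).range = S.W chi v := by
  ext x
  rw [AddMonoidHom.mem_range]
  constructor
  · rintro ⟨Q, rfl⟩
    exact ⟨Q.1, Q.2, (iota_un h (Q.2 _ (h.sg_mem v))).symm, (iota_un h (Q.2 _ (h.phi_mem v))).symm⟩
  · rintro ⟨Q, hQ, h1, h2⟩
    refine ⟨⟨Q, hQ⟩, ?_⟩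
    refine Prod.ext ?_ ?_
    · change S.un (dl chi Q (S.sg v)) = x.1
      rw [h1, un_iota h]
    · change S.un (dl chi Q (S.phi v)) = x.2
      rw [h2, un_iota h]

theorem pvHom_ker (h : S.Ok) {chi : G → ZMod 2} (hchi : S.HomG chi) (v : Pl) (Q : S.Pv chi v) :
    Q ∈ (pvHom h chi v).ker ↔ Q.1 ∈ S.Mv chi v := by
  rw [AddMonoidHom.mem_ker, mem_Mv]
  constructor
  · intro hQ
    refine cocD_zero h hchi v (dl_cocD h hchi Q.1 v) ?_ ?_
    · have := congrArg Prod.fst hQ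
      change S.un (dl chi Q.1 (S.sg v)) = 0 at this
      rwa [un_eq_iff h (Q.2 _ (h.sg_mem v)), map_zero] at this
    · have := congrArg Prod.snd hQ
      change S.un (dl chi Q.1 (S.phi v)) = 0 at this
      rwa [un_eq_iff h (Q.2 _ (h.phi_mem v)), map_zero] at this
  · intro hQ
    refine Prod.ext ?_ ?_
    · change S.un (dl chi Q.1 (S.sg v)) = 0
      rw [hQ _ (h.sg_mem v), un_zero h]
    · change S.un (dl chi Q.1 (S.phi v)) = 0
      rw [hQ _ (h.phi_mem v), un_zero h]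

/-- `#(A/B) * #B = #A` in the form needed here. -/
theorem card_hom {A B : Type*} [AddCommGroup A] [AddCommGroup B] (f : A →+ B) :
    Nat.card f.ker * Nat.card f.range = Nat.card A := by
  rw [← AddSubgroup.index_ker f, AddSubgroup.card_mul_index]

theorem card_V1 : Nat.card V1 = 4 := by
  rw [Nat.card_eq_fintype_card]; rfl

/-- G1: the local Kummer group has 4 elements. -/
theorem card_W (h : S.Ok) {chi : G → ZMod 2} (hchi : S.HomG chi) (v : Pl) :
    Nat.card (S.W chi v) = 4 := by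
  have hfin : Finite (S.Mv chi v) := h.fin_inv chi hchi v
  have hle : S.Mv chi v ≤ S.Pv chi v := fun Q hQ s hs => by rw [hQ s hs, smul_zero]
  -- the first count
  have e1 : Nat.card (S.Mv chi v) * Nat.card (S.W chi v) = Nat.card (S.Pv chi v) := by
    rw [← card_hom (pvHom h chi v), pvHom_range]
    congr 1
    refine Nat.card_congr ⟨fun Q => ⟨⟨Q.1, hle Q.2⟩, (pvHom_ker h hchi v _).mpr Q.2⟩,
      fun Q => ⟨Q.1.1, (pvHom_ker h hchi v _).mp Q.2⟩, fun _ => rfl, fun _ => rfl⟩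
  -- the second count
  let g : S.Pv chi v →+ S.Mv chi v :=
    { toFun := fun Q => ⟨(2 : ℕ) • Q.1, fun s hs => by rw [dl_nsmul]; exact Q.2 s hs⟩
      map_zero' := by ext; simp
      map_add' := by intro Q R; ext; simp }
  have hg : Function.Surjective g := by
    rintro ⟨Q, hQ⟩
    obtain ⟨R, hR⟩ := h.half Q
    refine ⟨⟨R, fun s hs => ?_⟩, Subtype.ext hR⟩
    rw [← dl_nsmul, hR, hQ s hs]
  have e2 : 4 * Nat.card (S.Mv chi v) = Nat.card (S.Pv chi v) := by
    rw [← card_hom g, AddMonoidHom.range_eq_top.mpr hg, AddSubgroup.card_top]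
    congr 1
    rw [← card_V1]
    refine Nat.card_congr (Equiv.ofBijective (fun w => ⟨⟨S.iota w, fun s _ => ?_⟩, ?_⟩) ⟨?_, ?_⟩)
    · rw [dl_iota h, smul_zero]
    · rw [AddMonoidHom.mem_ker]
      exact Subtype.ext (two_iota S w)
    · intro w w' hw
      exact h.iota_inj (congrArg (fun x => x.1.1) hw)
    · rintro ⟨⟨Q, hQ⟩, hQ2⟩
      obtain ⟨w, hw⟩ := h.iota_range Q (congrArg Subtype.val (AddMonoidHom.mem_ker.mp hQ2))
      exact ⟨w, Subtype.ext (Subtype.ext hw)⟩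
  have hpos : 0 < Nat.card (S.Mv chi v) := Nat.card_pos
  have : Nat.card (S.Mv chi v) * Nat.card (S.W chi v) = Nat.card (S.Mv chi v) * 4 := by
    rw [e1, ← e2]; ring
  exact Nat.eq_of_mul_eq_mul_left hpos this

/-- The unramified pairs. -/
def Ur : AddSubgroup (V1 × V1) := (AddMonoidHom.fst V1 V1).ker

theorem mem_Ur {x : V1 × V1} : x ∈ Ur ↔ x.1 = 0 := Iff.rfl

theorem card_Ur : Nat.card Ur = 4 := by
  rw [← card_V1]
  exact Nat.card_congr ⟨fun x => x.1.2, fun w => ⟨(0, w), rfl⟩,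
    fun x => Subtype.ext (Prod.ext x.2.symm rfl), fun _ => rfl⟩

/-- At a good place where the twist is unramified the Kummer group is the unramified group. -/
theorem W_good (h : S.Ok) {chi : G → ZMod 2} (hchi : S.HomG chi) {v : Pl} (hv : v ∈ S.good)
    (h0 : chi (S.sg v) = 0) : S.W chi v = Ur := by
  have hle : S.W chi v ≤ Ur := by
    rintro x ⟨Q, hQ, h1, h2⟩
    rw [dl_sg_zero h hv h0] at h1
    exact (iota_eq_zero h).mp h1.symm
  apply SetLike.coe_injective
  refine Set.eq_of_subset_of_ncard_le hle ?_ (Set.toFinite _)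
  rw [← Nat.card_coe_set_eq, ← Nat.card_coe_set_eq]
  have e1 : Nat.card (S.W chi v : Set (V1 × V1)) = 4 := card_W h hchi v
  have e2 : Nat.card (Ur : Set (V1 × V1)) = 4 := card_Ur
  rw [e1, e2]

theorem mem_Wl_good (h : S.Ok) {chi : G → ZMod 2} (hchi : S.HomG chi) {v : Pl} (hv : v ∈ S.good)
    (h0 : chi (S.sg v) = 0) (x : V1 × V1) : x ∈ S.Wl chi v ↔ x.1 = 0 := by
  rw [← mem_W, W_good h hchi hv h0, mem_Ur]

theorem exc_fin (h : S.Ok) {chi : G → ZMod 2} (hchi : S.HomG chi) :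
    {v | ¬ ∀ x : V1 × V1, x ∈ S.W chi v ↔ x.1 = 0}.Finite := by
  refine (bad_fin h hchi).subset fun v hv hg => hv fun x => ?_
  exact mem_Wl_good h hchi hg.1 hg.2 x

/-- At a good place where the twist is ramified, the Kummer group is `{dl z : 2z = iota w}`. -/
theorem mem_Wl_ram (h : S.Ok) {chi : G → ZMod 2} {v : Pl} (hv : v ∈ S.good)
    (h1 : chi (S.sg v) = 1) (x : V1 × V1) {z : V} (hz : (2 : ℕ) • z = S.iota x.1) :
    x ∈ S.Wl chi v ↔ dl chi z (S.phi v) = S.iota x.2 := by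
  constructor
  · rintro ⟨Q, hQ, h2, h3⟩
    rw [← h3, fill_eq h hv h1 h2 hz]
  · intro h2
    refine ⟨z, fun s _ => ?_, ?_, h2⟩
    · rw [← dl_nsmul, hz, dl_iota h]
    · rw [dl_sg_one h hv h1, hz, neg_iota]

/-- A Kummer pair at a good ramified place is determined by its first component. -/
theorem Wl_ram_ext (h : S.Ok) {chi : G → ZMod 2} {v : Pl} (hv : v ∈ S.good)
    (h1 : chi (S.sg v) = 1) {x y : V1 × V1} (hx : x ∈ S.Wl chi v) (hy : y ∈ S.Wl chi v)
    (he : x.1 = y.1) : x = y := by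
  obtain ⟨z, hz⟩ := h.half (S.iota x.1)
  have e1 := (mem_Wl_ram h hv h1 x hz).mp hx
  rw [he] at hz
  have e2 := (mem_Wl_ram h hv h1 y hz).mp hy
  exact Prod.ext he (h.iota_inj (e1.symm.trans e2))

end Sys

end Pool.Agent.Sm
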