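import Pool.Agent.Lib.Sm.G.TowerJ
import Pool.Agent.Lib.Sm.L.LFacts

/-!
# SMITH block G, module LFactsOk: the facts needed by block L
-/

set_option autoImplicit false

open Polynomial

namespace Pool.Agent.Sm

variable {k : Type} [Field k] {G V Pl : Type} [Group G] [AddCommGroup V] [DistribMulAction G V]
variable {S : Sys G V Pl} {ch : k[X] → G → ZMod 2} {d : TwData k} {J : Type}
  [Fintype J] {p : J → k[X]}

theorem lfacts (h : S.Ok) (hc : CodeOk S ch d p) (hsub : FJ S ch d p ⊆ SelpJ d p) :
    LFacts S ch d p where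
  sub := hsub
  fin := finite_isSel h hc
  card_zero := card_isSel_zero h hc
  card_succ := card_isSel_succ h hc
  recur := fun i hi => recursionJ h hc hi
  basis := fun m hm a ha b hb hI => by
    obtain ⟨r, c, l1, l0, β, h1, h2, h3, h4, h5, h6, h7, h8, h9⟩ := exists_basisJ h hc hm ha hb hI
    exact ⟨⟨r, c, l1, l0, h1, h2, h3, h4, h5, h6, β, h7, h8, h9⟩⟩

end Pool.Agent.Sm
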