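import Mathlib

/-!
# SMITH (MP_48b749_nt), block G6: the abstract tower of Selmer cocycles

`Z j` = `SelZ_j(chi)` (Selmer cocycles with values in `V[2^j]`), `T` = all coboundaries `dl chi z`,
`z` in `V`, `P m b` = the pairing `⟨m, b⟩` (`b` in `Z 1`). `F` is a finite space of ALL codes,
`c : F → M` the cochain of a code, `Fs` the codes of the elements of `Z 1` (so different towers can
be compared inside the same `F`). `Tower.Ok` collects what block G delivers; everything below is pure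
algebra.

`ev m` = the total function `b ↦ ⟨m, c b⟩` on `F`, zero outside `Fs`; `Lam j` = the relations
`Λ_j ⊂ F × (F → F_2)`, `L j` = `L_j ⊂ Fs`, `Kp ⊂ Fs` = the codes of the torsion cocycles
(the image of `kappa`), numbering (`1 ≤ j`) as in the paper.
-/

set_option autoImplicit false

namespace Pool.Agent.Sm

/-- `(-1)^x`. -/
def sgR (x : ZMod 2) : ℝ := if x = 0 then 1 else -1

theorem sgR_zero : sgR 0 = 1 := by simp [sgR]

theorem sgR_one : sgR 1 = -1 := by simp [sgR]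

theorem sgR_add (x y : ZMod 2) : sgR (x + y) = sgR x * sgR y := by
  have h : ∀ z : ZMod 2, z = 0 ∨ z = 1 := by decide
  have h11 : (1 : ZMod 2) + 1 = 0 := by decide
  rcases h x with rfl | rfl <;> rcases h y with rfl | rfl <;> simp [sgR, h11]

/-- The data of a tower. -/
structure Tower (F M : Type*) [AddCommGroup F] [Module (ZMod 2) F] [AddCommGroup M] where
  Z : ℕ → AddSubgroup M
  T : AddSubgroup M
  P : M → M → ZMod 2
  c : F →+ M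
  Fs : Submodule (ZMod 2) F

namespace Tower

variable {F M : Type*} [AddCommGroup F] [Module (ZMod 2) F] [AddCommGroup M] (W : Tower F M)

/-- What block G delivers. -/
structure Ok : Prop where
  fin : Finite F
  zero : W.Z 0 = ⊥
  mono : ∀ j, W.Z j ≤ W.Z (j + 1)
  lev : ∀ j, ∀ m ∈ W.Z j, (2 : ℕ) ^ j • m = 0
  low : ∀ j, ∀ m ∈ W.Z (j + 1), (2 : ℕ) ^ j • m = 0 → m ∈ W.Z j
  addl : ∀ j, ∀ m ∈ W.Z j, ∀ m' ∈ W.Z j, ∀ b ∈ W.Z 1, W.P (m + m') b = W.P m b + W.P m' b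
  addr : ∀ j, ∀ m ∈ W.Z j, ∀ b ∈ W.Z 1, ∀ b' ∈ W.Z 1, W.P m (b + b') = W.P m b + W.P m b'
  crit : ∀ j, ∀ m ∈ W.Z j, (∀ b ∈ W.Z 1, W.P m b = 0) ↔ ∃ m' ∈ W.Z (j + 1), (2 : ℕ) • m' = m
  ttor : ∀ t ∈ W.T, ∃ j, (2 : ℕ) ^ j • t = 0
  tdiv : ∀ t ∈ W.T, ∃ t' ∈ W.T, (2 : ℕ) • t' = t
  tlev : ∀ j, ∀ t ∈ W.T, (2 : ℕ) ^ j • t = 0 → t ∈ W.Z j
  cinj : Function.Injective W.c
  crange : ∀ m, m ∈ W.Z 1 ↔ ∃ a ∈ W.Fs, W.c a = m

/-- The function `b ↦ ⟨m, c b⟩`, extended by zero outside `Fs`. -/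
noncomputable def ev (m : M) (b : F) : ZMod 2 :=
  open Classical in if b ∈ W.Fs then W.P m (W.c b) else 0

/-- The relations `Λ_j` (`1 ≤ j`). -/
def Lam (j : ℕ) : Set (F × (F → ZMod 2)) :=
  {p | ∃ m ∈ W.Z j, (2 : ℕ) ^ (j - 1) • m = W.c p.1 ∧ p.2 = W.ev m}

/-- `L_j` = the elements of `F` which are `2^(j-1)` times a cocycle of level `j` (`1 ≤ j`). -/
def L (j : ℕ) : Submodule (ZMod 2) F :=
  AddSubgroup.toZModSubmodule 2 (((W.Z j).map (nsmulAddMonoidHom (2 ^ (j - 1)))).comap W.c)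

/-- The codes of the torsion cocycles. -/
def Kp : Submodule (ZMod 2) F := AddSubgroup.toZModSubmodule 2 (W.T.comap W.c)

/-- `b` (in `Fs`) is orthogonal to `Z j`. -/
def Perp (j : ℕ) (b : F) : Prop := b ∈ W.Fs ∧ ∀ m ∈ W.Z j, W.P m (W.c b) = 0

/-- `⟨Psi, b⟩` for any `Psi` in `Z j` with `2^(j-1) Psi = a` (well defined if `Perp (j-1) b`). -/
noncomputable def Fab (j : ℕ) (a b : F) : ZMod 2 :=
  open Classical in
  if h : ∃ m ∈ W.Z j, (2 : ℕ) ^ (j - 1) • m = W.c a then W.P h.choose (W.c b) else 0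

/-- `a`, `b` are independent modulo `Kp`. -/
def Ind (a b : F) : Prop := a ∉ W.Kp ∧ b ∉ W.Kp ∧ b + a ∉ W.Kp

theorem mem_L (j : ℕ) (a : F) : a ∈ W.L j ↔ ∃ m ∈ W.Z j, (2 : ℕ) ^ (j - 1) • m = W.c a := by
  rw [L, AddSubgroup.mem_toZModSubmodule, AddSubgroup.mem_comap, AddSubgroup.mem_map]
  rfl

theorem mem_Kp (a : F) : a ∈ W.Kp ↔ W.c a ∈ W.T := by
  rw [Kp, AddSubgroup.mem_toZModSubmodule, AddSubgroup.mem_comap]

end Tower

/-- A basis `cc` of `Fs` modulo `K`, adapted to the flag `Fs = Lf 1 ⊇ … ⊇ Lf k ⊇ K`. -/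
structure Adapted {F : Type*} [AddCommGroup F] [Module (ZMod 2) F] (Fs : Submodule (ZMod 2) F)
    (Lf : ℕ → Submodule (ZMod 2) F) (K : Submodule (ZMod 2) F) (k : ℕ) {r : ℕ}
    (cc : Fin r → F) : Prop where
  mem : ∀ i, cc i ∈ Fs
  indep : ∀ x : Fin r → ZMod 2, ∑ i, x i • cc i ∈ K → x = 0
  span : ∀ a ∈ Fs, ∃ x : Fin r → ZMod 2, a - ∑ i, x i • cc i ∈ K
  adapt : ∀ j, 1 ≤ j → j ≤ k → ∀ x : Fin r → ZMod 2, ∑ i, x i • cc i ∈ Lf j →
    ∀ i, x i ≠ 0 → cc i ∈ Lf j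

end Pool.Agent.Sm
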