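import Pool.Agent.Lib.Sm.G.Tower

/-!
# SMITH, block G6: basic facts on the relations `Λ_j`
-/

set_option autoImplicit false

namespace Pool.Agent.Sm

namespace Tower

variable {F M : Type*} [AddCommGroup F] [Module (ZMod 2) F] [AddCommGroup M] {W : Tower F M}

theorem Zmono (h : W.Ok) {i j : ℕ} (hij : i ≤ j) : W.Z i ≤ W.Z j := by
  induction hij with
  | refl => exact le_rfl
  | step _ ih => exact ih.trans (h.mono _)

theorem cmem (h : W.Ok) {a : F} (ha : a ∈ W.Fs) : W.c a ∈ W.Z 1 := (h.crange _).2 ⟨a, ha, rfl⟩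

theorem mem_Fs (h : W.Ok) {a : F} (ha : W.c a ∈ W.Z 1) : a ∈ W.Fs := by
  obtain ⟨b, hb, e⟩ := (h.crange _).1 ha
  rwa [← h.cinj e]

theorem dbl_mem (h : W.Ok) {j : ℕ} {m : M} (hm : m ∈ W.Z (j + 1)) : (2 : ℕ) • m ∈ W.Z j := by
  refine h.low j _ (AddSubgroup.nsmul_mem _ hm 2) ?_
  rw [smul_smul, ← pow_succ]
  exact h.lev _ _ hm

theorem pow_mem (h : W.Ok) (i : ℕ) {j : ℕ} {m : M} (hm : m ∈ W.Z (j + i)) :
    (2 : ℕ) ^ i • m ∈ W.Z j := by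
  induction i generalizing j m with
  | zero => simpa using hm
  | succ i ih =>
    have : (2 : ℕ) • m ∈ W.Z (j + i) := dbl_mem h (by rwa [← add_assoc] at hm)
    have h2 := ih this
    rwa [smul_smul, ← pow_succ] at h2

theorem low_mem (h : W.Ok) {i j : ℕ} {m : M} (hm : m ∈ W.Z j) (h0 : (2 : ℕ) ^ i • m = 0) :
    m ∈ W.Z i := by
  induction j with
  | zero => exact Zmono h (Nat.zero_le _) hm
  | succ j ih =>
    rcases Nat.lt_or_ge i (j + 1) with hlt | hge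
    · refine ih (h.low j m hm ?_)
      obtain ⟨e, rfl⟩ := Nat.exists_eq_add_of_le (Nat.le_of_lt_succ hlt)
      rw [add_comm i e, pow_add, mul_smul, h0, smul_zero]
    · exact Zmono h hge hm

theorem P_zero_left (h : W.Ok) {b : M} (hb : b ∈ W.Z 1) : W.P 0 b = 0 := by
  have := h.addl 0 0 (AddSubgroup.zero_mem _) 0 (AddSubgroup.zero_mem _) b hb
  rw [add_zero] at this
  exact left_eq_add.mp this

theorem P_zero_right (h : W.Ok) {j : ℕ} {m : M} (hm : m ∈ W.Z j) : W.P m 0 = 0 := by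
  have := h.addr j m hm 0 (AddSubgroup.zero_mem _) 0 (AddSubgroup.zero_mem _)
  rw [add_zero] at this
  exact left_eq_add.mp this

theorem P_dbl (h : W.Ok) {j : ℕ} {m : M} (hm : m ∈ W.Z (j + 1)) {b : M} (hb : b ∈ W.Z 1) :
    W.P ((2 : ℕ) • m) b = 0 :=
  (h.crit j _ (dbl_mem h hm)).2 ⟨m, hm, rfl⟩ b hb

theorem P_nsmul (h : W.Ok) {j : ℕ} {m : M} (hm : m ∈ W.Z j) {b : M} (hb : b ∈ W.Z 1) (n : ℕ) :
    W.P (n • m) b = (n : ZMod 2) * W.P m b := by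
  induction n with
  | zero => rw [zero_smul, P_zero_left h hb]; simp
  | succ n ih =>
    rw [succ_nsmul, h.addl j _ (AddSubgroup.nsmul_mem _ hm n) _ hm b hb, ih]
    push_cast
    ring

theorem P_neg (h : W.Ok) {j : ℕ} {m : M} (hm : m ∈ W.Z j) {b : M} (hb : b ∈ W.Z 1) :
    W.P (-m) b = W.P m b := by
  have := h.addl j m hm (-m) (AddSubgroup.neg_mem _ hm) b hb
  rw [add_neg_cancel, P_zero_left h hb] at this
  have h2 : ∀ x y : ZMod 2, 0 = x + y → y = x := by decide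
  exact h2 _ _ this

theorem P_sub (h : W.Ok) {j : ℕ} {m m' : M} (hm : m ∈ W.Z j) (hm' : m' ∈ W.Z j) {b : M}
    (hb : b ∈ W.Z 1) : W.P (m - m') b = W.P m b + W.P m' b := by
  rw [sub_eq_add_neg, h.addl j _ hm _ (AddSubgroup.neg_mem _ hm') b hb, P_neg h hm' hb]

theorem P_sum (h : W.Ok) {j : ℕ} {ι : Type*} (s : Finset ι) (m : ι → M)
    (hm : ∀ i ∈ s, m i ∈ W.Z j) {b : M} (hb : b ∈ W.Z 1) :
    W.P (∑ i ∈ s, m i) b = ∑ i ∈ s, W.P (m i) b := by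
  classical
  induction s using Finset.induction_on with
  | empty => simp [P_zero_left h hb]
  | insert a s ha ih =>
    rw [Finset.sum_insert ha, Finset.sum_insert ha,
      h.addl j _ (hm a (Finset.mem_insert_self a s)) _
        (AddSubgroup.sum_mem _ fun i hi => hm i (Finset.mem_insert_of_mem hi)) b hb,
      ih fun i hi => hm i (Finset.mem_insert_of_mem hi)]

theorem P_add_right (h : W.Ok) {j : ℕ} {m : M} (hm : m ∈ W.Z j) {b b' : F} (hb : b ∈ W.Fs)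
    (hb' : b' ∈ W.Fs) : W.P m (W.c (b + b')) = W.P m (W.c b) + W.P m (W.c b') := by
  rw [map_add, h.addr j m hm _ (cmem h hb) _ (cmem h hb')]

theorem ev_of_mem {m : M} {b : F} (hb : b ∈ W.Fs) : W.ev m b = W.P m (W.c b) := if_pos hb

theorem ev_of_notMem {m : M} {b : F} (hb : b ∉ W.Fs) : W.ev m b = 0 := if_neg hb

theorem ev_zero (h : W.Ok) : W.ev 0 = 0 := by
  funext b
  by_cases hb : b ∈ W.Fs
  · rw [ev_of_mem hb, P_zero_left h (cmem h hb)]; rfl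
  · rw [ev_of_notMem hb]; rfl

theorem ev_add (h : W.Ok) {j : ℕ} {m m' : M} (hm : m ∈ W.Z j) (hm' : m' ∈ W.Z j) :
    W.ev (m + m') = W.ev m + W.ev m' := by
  funext b
  rw [Pi.add_apply]
  by_cases hb : b ∈ W.Fs
  · rw [ev_of_mem hb, ev_of_mem hb, ev_of_mem hb, h.addl j _ hm _ hm' _ (cmem h hb)]
  · rw [ev_of_notMem hb, ev_of_notMem hb, ev_of_notMem hb, add_zero]

theorem ev_eq_iff {m : M} {f : F → ZMod 2} : f = W.ev m ↔
    (∀ b ∈ W.Fs, f b = W.P m (W.c b)) ∧ ∀ b ∉ W.Fs, f b = 0 := by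
  constructor
  · rintro rfl
    exact ⟨fun b hb => ev_of_mem hb, fun b hb => ev_of_notMem hb⟩
  · rintro ⟨h1, h2⟩
    funext b
    by_cases hb : b ∈ W.Fs
    · rw [h1 b hb, ev_of_mem hb]
    · rw [h2 b hb, ev_of_notMem hb]

/-- The criterion in terms of `ev`. -/
theorem ev_eq_zero_iff (h : W.Ok) {j : ℕ} {m : M} (hm : m ∈ W.Z j) :
    W.ev m = 0 ↔ ∃ m' ∈ W.Z (j + 1), (2 : ℕ) • m' = m := by
  rw [← h.crit j m hm]
  constructor
  · intro h0 b hb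
    obtain ⟨a, ha, rfl⟩ := (h.crange b).1 hb
    rw [← ev_of_mem ha, h0]; rfl
  · intro h0
    funext b
    by_cases hb : b ∈ W.Fs
    · rw [ev_of_mem hb, h0 _ (cmem h hb)]; rfl
    · rw [ev_of_notMem hb]; rfl

theorem tdiv_pow (h : W.Ok) (n : ℕ) {t : M} (ht : t ∈ W.T) : ∃ t' ∈ W.T, (2 : ℕ) ^ n • t' = t := by
  induction n with
  | zero => exact ⟨t, ht, by simp⟩
  | succ n ih =>
    obtain ⟨t', ht', e⟩ := ih
    obtain ⟨t'', ht'', e'⟩ := h.tdiv t' ht'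
    exact ⟨t'', ht'', by rw [pow_succ, mul_smul, e', e]⟩

theorem P_tors (h : W.Ok) {t : M} (ht : t ∈ W.T) {b : M} (hb : b ∈ W.Z 1) : W.P t b = 0 := by
  obtain ⟨j, hj⟩ := h.ttor t ht
  obtain ⟨t', ht', e⟩ := h.tdiv t ht
  have h1 : t' ∈ W.Z (j + 1) := by
    refine h.tlev _ t' ht' ?_
    rw [pow_succ, mul_smul, e, hj]
  rw [← e]
  exact P_dbl h h1 hb

theorem ev_tors (h : W.Ok) {t : M} (ht : t ∈ W.T) : W.ev t = 0 := by
  funext b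
  by_cases hb : b ∈ W.Fs
  · rw [ev_of_mem hb, P_tors h ht (cmem h hb)]; rfl
  · rw [ev_of_notMem hb]; rfl

theorem c_two (h : W.Ok) (a : F) : (2 : ℕ) • W.c a = 0 := by
  have h2 : (2 : ℕ) • a = 0 := by
    rw [← Nat.cast_smul_eq_nsmul (ZMod 2)]
    have : ((2 : ℕ) : ZMod 2) = 0 := by decide
    rw [this, zero_smul]
  rw [← map_nsmul, h2, map_zero]

theorem kp_le_Fs (h : W.Ok) : W.Kp ≤ W.Fs := by
  intro a ha
  rw [W.mem_Kp] at ha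
  exact mem_Fs h (h.tlev 1 _ ha (by rw [pow_one]; exact c_two h a))

/-- Torsion cocycle of level `j` over a given code in `Kp`. -/
theorem exists_tors (h : W.Ok) {j : ℕ} (hj : 1 ≤ j) {a : F} (ha : a ∈ W.Kp) :
    ∃ t ∈ W.T, t ∈ W.Z j ∧ (2 : ℕ) ^ (j - 1) • t = W.c a := by
  obtain ⟨t, ht, e⟩ := tdiv_pow h (j - 1) ((W.mem_Kp a).1 ha)
  refine ⟨t, ht, h.tlev j t ht ?_, e⟩
  obtain ⟨i, rfl⟩ := Nat.exists_eq_add_of_le' hj
  rw [Nat.add_sub_cancel] at e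
  rw [pow_succ', mul_smul, e]
  exact c_two h a

theorem lam_add (h : W.Ok) {j : ℕ} {p q : F × (F → ZMod 2)} (hp : p ∈ W.Lam j)
    (hq : q ∈ W.Lam j) : p + q ∈ W.Lam j := by
  obtain ⟨m, hm, e, f⟩ := hp
  obtain ⟨m', hm', e', f'⟩ := hq
  refine ⟨m + m', AddSubgroup.add_mem _ hm hm', ?_, ?_⟩
  · rw [smul_add, e, e', Prod.fst_add, map_add]
  · rw [Prod.snd_add, f, f', ev_add h hm hm']

theorem lam_kap (h : W.Ok) {j : ℕ} (hj : 1 ≤ j) {a : F} (ha : a ∈ W.Kp) :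
    ((a, 0) : F × (F → ZMod 2)) ∈ W.Lam j := by
  obtain ⟨t, ht, hz, e⟩ := exists_tors h hj ha
  exact ⟨t, hz, e, (ev_tors h ht).symm⟩

theorem mem_L_iff_lam {j : ℕ} (a : F) : a ∈ W.L j ↔ ∃ f, (a, f) ∈ W.Lam j := by
  rw [W.mem_L]
  constructor
  · rintro ⟨m, hm, e⟩
    exact ⟨W.ev m, m, hm, e, rfl⟩
  · rintro ⟨f, m, hm, e, _⟩
    exact ⟨m, hm, e⟩

theorem kp_le_L (h : W.Ok) {j : ℕ} (hj : 1 ≤ j) : W.Kp ≤ W.L j := fun _ ha =>
  (mem_L_iff_lam _).2 ⟨0, lam_kap h hj ha⟩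

theorem L_succ_le (h : W.Ok) {j : ℕ} (hj : 1 ≤ j) : W.L (j + 1) ≤ W.L j := by
  intro a ha
  rw [W.mem_L] at ha ⊢
  obtain ⟨m, hm, e⟩ := ha
  refine ⟨(2 : ℕ) • m, dbl_mem h hm, ?_⟩
  obtain ⟨i, rfl⟩ := Nat.exists_eq_add_of_le' hj
  rw [Nat.add_sub_cancel] at e ⊢
  rw [smul_smul, ← pow_succ, e]

theorem L_one (h : W.Ok) : W.L 1 = W.Fs := by
  ext a
  rw [W.mem_L]
  constructor
  · rintro ⟨m, hm, e⟩
    rw [Nat.sub_self, pow_zero, one_smul] at e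
    exact mem_Fs h (e ▸ hm)
  · intro ha
    exact ⟨W.c a, cmem h ha, by simp⟩

theorem L_anti (h : W.Ok) {i j : ℕ} (hi : 1 ≤ i) (hij : i ≤ j) : W.L j ≤ W.L i := by
  induction hij with
  | refl => exact le_rfl
  | step hij ih => exact (L_succ_le h (hi.trans hij)).trans ih

theorem L_le_Fs (h : W.Ok) {j : ℕ} (hj : 1 ≤ j) : W.L j ≤ W.Fs :=
  L_one h ▸ L_anti h le_rfl hj

theorem lam_fst (h : W.Ok) {j : ℕ} (hj : 1 ≤ j) {p : F × (F → ZMod 2)} (hp : p ∈ W.Lam j) :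
    p.1 ∈ W.Fs := L_le_Fs h hj ((mem_L_iff_lam p.1).2 ⟨p.2, hp⟩)

theorem lam_zero_right (h : W.Ok) {j : ℕ} (hj : 1 ≤ j) (a : F) :
    ((a, 0) : F × (F → ZMod 2)) ∈ W.Lam j ↔ a ∈ W.L (j + 1) := by
  obtain ⟨i, rfl⟩ := Nat.exists_eq_add_of_le' hj
  rw [W.mem_L]
  constructor
  · rintro ⟨m, hm, e, f⟩
    obtain ⟨m', hm', e'⟩ := (ev_eq_zero_iff h hm).1 f.symm
    refine ⟨m', hm', ?_⟩
    rw [Nat.add_sub_cancel] at e ⊢
    rw [pow_succ, mul_smul, e', e]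
  · rintro ⟨m, hm, e⟩
    refine ⟨(2 : ℕ) • m, dbl_mem h hm, ?_, ?_⟩
    · rw [Nat.add_sub_cancel] at e ⊢
      rw [smul_smul, ← pow_succ, e]
    · exact ((ev_eq_zero_iff h (dbl_mem h hm)).2 ⟨m, hm, rfl⟩).symm

theorem lam_zero_left (h : W.Ok) {j : ℕ} (hj : 1 ≤ j) (f : F → ZMod 2) :
    ((0, f) : F × (F → ZMod 2)) ∈ W.Lam j ↔ ∃ m ∈ W.Z (j - 1), f = W.ev m := by
  obtain ⟨i, rfl⟩ := Nat.exists_eq_add_of_le' hj
  rw [Nat.add_sub_cancel]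
  constructor
  · rintro ⟨m, hm, e, f⟩
    rw [map_zero, Nat.add_sub_cancel] at e
    exact ⟨m, h.low _ m hm e, f⟩
  · rintro ⟨m, hm, f⟩
    refine ⟨m, h.mono _ hm, ?_, f⟩
    rw [map_zero, Nat.add_sub_cancel]
    exact h.lev _ m hm

/-- Every cocycle of level `j` gives a relation. -/
theorem exists_code (h : W.Ok) {j : ℕ} (hj : 1 ≤ j) {m : M} (hm : m ∈ W.Z j) :
    ∃ a ∈ W.Fs, (2 : ℕ) ^ (j - 1) • m = W.c a := by
  obtain ⟨i, rfl⟩ := Nat.exists_eq_add_of_le' hj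
  rw [Nat.add_sub_cancel]
  have : (2 : ℕ) ^ i • m ∈ W.Z 1 := pow_mem h i (by rwa [add_comm])
  obtain ⟨a, ha, e⟩ := (h.crange _).1 this
  exact ⟨a, ha, e.symm⟩

theorem perp_iff_lam (h : W.Ok) {j : ℕ} (hj : 1 ≤ j) (b : F) :
    W.Perp j b ↔ b ∈ W.Fs ∧ ∀ p ∈ W.Lam j, p.2 b = 0 := by
  constructor
  · rintro ⟨hbF, hb⟩
    refine ⟨hbF, ?_⟩
    rintro p ⟨m, hm, _, f⟩
    rw [f, ev_of_mem hbF, hb m hm]
  · rintro ⟨hbF, hp⟩
    refine ⟨hbF, fun m hm => ?_⟩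
    obtain ⟨a, _, ha⟩ := exists_code h hj hm
    rw [← ev_of_mem hbF]
    exact hp (a, W.ev m) ⟨m, hm, ha, rfl⟩

theorem perp_zero (h : W.Ok) (b : F) : W.Perp 0 b ↔ b ∈ W.Fs := by
  refine ⟨fun hb => hb.1, fun hb => ⟨hb, fun m hm => ?_⟩⟩
  rw [h.zero, AddSubgroup.mem_bot] at hm
  rw [hm, P_zero_left h (cmem h hb)]

theorem fab_eq (h : W.Ok) {j : ℕ} (hj : 1 ≤ j) {a b : F} (hb : W.Perp (j - 1) b) {m : M}
    (hm : m ∈ W.Z j) (hma : (2 : ℕ) ^ (j - 1) • m = W.c a) : W.Fab j a b = W.P m (W.c b) := by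
  have hex : ∃ m ∈ W.Z j, (2 : ℕ) ^ (j - 1) • m = W.c a := ⟨m, hm, hma⟩
  rw [Fab, dif_pos hex]
  obtain ⟨h1, h2⟩ := hex.choose_spec
  generalize hex.choose = m' at h1 h2
  obtain ⟨i, rfl⟩ := Nat.exists_eq_add_of_le' hj
  rw [Nat.add_sub_cancel] at hma h2 hb
  have h3 : m' - m ∈ W.Z i := by
    refine h.low _ _ (AddSubgroup.sub_mem _ h1 hm) ?_
    rw [smul_sub, h2, hma, sub_self]
  have h4 := hb.2 _ h3
  rw [P_sub h h1 hm (cmem h hb.1)] at h4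
  have h5 : ∀ x y : ZMod 2, x + y = 0 → x = y := by decide
  exact h5 _ _ h4

end Tower

end Pool.Agent.Sm
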