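import Pool.Agent.Lib.Sm.G.TowerFacts
import Pool.Agent.Lib.Sm.G.CodeOk
import Pool.Agent.Lib.Sm.G.TowerD
import Pool.Agent.Lib.Sm.G.TowerB

/-!
# SMITH block G, module TowerJ: the tower of the twist by a vector of primes
-/

set_option autoImplicit false

open Polynomial

namespace Pool.Agent.Sm

variable {k : Type} [Field k] {G V Pl : Type} [Group G] [AddCommGroup V] [DistribMulAction G V]

section

variable (S : Sys G V Pl) (h : S.Ok) (ch : k[X] → G → ZMod 2) (d : TwData k) {J : Type}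
  [Fintype J] (p : J → k[X])

/-- The tower of the twist by `∏ j, p j`. -/
noncomputable def twJ : Tower (CodeJ d J) (G → V) where
  Z := S.SelZ h (chiJ ch p)
  T := Sys.Cob (chiJ ch p)
  P := S.PV (chiJ ch p)
  c :=
    { toFun := fun c s => S.iota (homJ ch d p c s)
      map_zero' := by
        funext s
        rw [homJ_zero]
        exact map_zero _
      map_add' := by
        intro c c'
        funext s
        rw [homJ_add]
        exact map_add _ _ _ }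
  Fs := AddSubgroup.toZModSubmodule 2 ((S.Sel1 h (chiJ ch p)).comap (homJA ch d p))

theorem twJ_c (c : CodeJ d J) : (twJ S h ch d p).c c = fun s => S.iota (homJ ch d p c s) := rfl

theorem twJ_Z (i : ℕ) : (twJ S h ch d p).Z i = S.SelZ h (chiJ ch p) i := rfl

theorem twJ_T : (twJ S h ch d p).T = Sys.Cob (chiJ ch p) := rfl

theorem twJ_P : (twJ S h ch d p).P = S.PV (chiJ ch p) := rfl

theorem mem_twJ_Fs (c : CodeJ d J) : c ∈ (twJ S h ch d p).Fs ↔ c ∈ FJ S ch d p := by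
  rw [twJ, AddSubgroup.mem_toZModSubmodule]
  rfl

end

variable {S : Sys G V Pl} {ch : k[X] → G → ZMod 2} {d : TwData k} {J : Type}
  [Fintype J] {p : J → k[X]}

/-- The tower of the twist satisfies all axioms. -/
theorem twJ_ok (h : S.Ok) (hc : CodeOk S ch d p) : (twJ S h ch d p).Ok where
  fin := inferInstance
  zero := Sys.SelZ_zero h _
  mono := Sys.SelZ_le_succ h _
  lev := fun _ _ hm => Sys.SelZ_pow h _ hm
  low := fun _ _ hm h0 => Sys.SelZ_of_pow h _ hm h0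
  addl := fun _ _ hm _ hm' _ hb => Sys.PV_add_left h hc.chi hm hm' hb
  addr := fun _ _ hm _ hb _ hb' => Sys.PV_add_right h hc.chi hm hb hb'
  crit := fun _ _ hm => Sys.PV_crit h hc.chi hm
  ttor := fun _ ht => Sys.Cob_tors h ht
  tdiv := fun _ ht => Sys.Cob_half h ht
  tlev := fun _ _ ht h0 => Sys.Cob_SelZ h hc.chi ht h0
  cinj := by
    intro a b hab
    apply hc.inj
    funext s
    exact h.iota_inj (congrFun hab s)
  crange := by
    intro m
    constructor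
    · intro hm
      have h1 := Sys.isSel_un h hm
      obtain ⟨c, hcc⟩ := hc.surj _ h1
      refine ⟨c, (mem_twJ_Fs S h ch d p c).mpr ?_, ?_⟩
      · change S.IsSel1 (chiJ ch p) (homJ ch d p c)
        rw [hcc]; exact h1
      · rw [twJ_c]
        funext s
        rw [hcc]
        refine Sys.iota_un h ?_
        have := (show S.IsSel (chiJ ch p) 1 m from hm).lev s
        rwa [pow_one] at this
    · rintro ⟨a, ha, rfl⟩
      exact Sys.isSel_iota h hc.chi ((mem_twJ_Fs S h ch d p a).mp ha)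

/-! ### The torsion codes -/

theorem CodeOk.inv (h : S.Ok) (hc : CodeOk S ch d p) {Q : V}
    (hQ : ∀ s, dl (chiJ ch p) Q s = 0) : (2 : ℕ) • Q = 0 := by
  obtain ⟨v, hv, h1⟩ := hc.ram
  have := hQ (S.sg v)
  rwa [Sys.dl_sg_one h hv h1, neg_eq_zero] at this

theorem mem_twJ_Kp (h : S.Ok) (hc : CodeOk S ch d p) (a : CodeJ d J) :
    a ∈ (twJ S h ch d p).Kp ↔ ∃ w, a = kapJ d J w := by
  rw [Tower.mem_Kp, twJ_T, Sys.mem_Cob, twJ_c]
  constructor
  · rintro ⟨z, hz⟩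
    have h2 : (2 : ℕ) • ((2 : ℕ) • z) = 0 := by
      refine hc.inv h fun s => ?_
      rw [dl_nsmul, ← congrFun hz s]
      exact Sys.two_iota S _
    obtain ⟨w, hw⟩ := h.iota_range _ h2
    refine ⟨w, hc.inj (funext fun s => h.iota_inj ?_)⟩
    rw [hc.kap w z hw.symm s]
    exact congrFun hz s
  · rintro ⟨w, rfl⟩
    obtain ⟨z, hz⟩ := h.half (S.iota w)
    exact ⟨z, funext fun s => hc.kap w z hz s⟩

theorem card_twJ_Kp (h : S.Ok) (hc : CodeOk S ch d p) : Nat.card (twJ S h ch d p).Kp ≤ 4 := by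
  have hs : Function.Surjective (fun w : V1 => (⟨kapJ d J w, (mem_twJ_Kp h hc _).mpr ⟨w, rfl⟩⟩ :
      (twJ S h ch d p).Kp)) := by
    rintro ⟨a, ha⟩
    obtain ⟨w, rfl⟩ := (mem_twJ_Kp h hc a).mp ha
    exact ⟨w, rfl⟩
  rw [← Sys.card_V1]
  exact Nat.card_le_card_of_surjective _ hs

/-! ### Translation of the definitions of `L/Vec.lean` -/

theorem FJ_eq (h : S.Ok) : FJ S ch d p = ((twJ S h ch d p).Fs : Set (CodeJ d J)) := by
  ext c
  exact (mem_twJ_Fs S h ch d p c).symm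

theorem twJ_PV (h : S.Ok) (m : G → V) (b : CodeJ d J) :
    (twJ S h ch d p).P m ((twJ S h ch d p).c b) = S.CT (chiJ ch p) m (homJ ch d p b) := by
  rw [twJ_P, twJ_c, Sys.PV]
  simp only [Sys.un_iota h]

theorem abv_iff (h : S.Ok) {i : ℕ} {a : CodeJ d J} {Psi : G → V} : Abv S ch d p i a Psi ↔
    Psi ∈ (twJ S h ch d p).Z i ∧ (2 : ℕ) ^ (i - 1) • Psi = (twJ S h ch d p).c a := by
  rw [Abv, twJ_Z, Sys.mem_SelZ, twJ_c]
  exact and_congr_right fun _ => ⟨fun h2 => funext h2, fun h2 s => congrFun h2 s⟩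

theorem LamJ_eq (h : S.Ok) (hc : CodeOk S ch d p) {i : ℕ} (hi : 1 ≤ i) :
    LamJ S ch d p i = (twJ S h ch d p).Lam i := by
  ext y
  constructor
  · rintro ⟨hy, Psi, hA, h1, h2⟩
    obtain ⟨h3, h4⟩ := (abv_iff h).mp hA
    refine ⟨Psi, h3, h4, Tower.ev_eq_iff.mpr ⟨fun b hb => ?_, fun b hb => ?_⟩⟩
    · rw [twJ_PV]
      exact h1 b ((mem_twJ_Fs S h ch d p b).mp hb)
    · exact h2 b fun hb' => hb ((mem_twJ_Fs S h ch d p b).mpr hb')
  · intro hy
    have hF := Tower.lam_fst (twJ_ok h hc) hi hy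
    obtain ⟨Psi, h3, h4, h5⟩ := hy
    obtain ⟨h6, h7⟩ := Tower.ev_eq_iff.mp h5
    refine ⟨(mem_twJ_Fs S h ch d p _).mp hF, Psi, (abv_iff h).mpr ⟨h3, h4⟩, fun c hcF => ?_,
      fun c hcF => ?_⟩
    · rw [← twJ_PV h]
      exact h6 c ((mem_twJ_Fs S h ch d p c).mpr hcF)
    · exact h7 c fun hb => hcF ((mem_twJ_Fs S h ch d p c).mp hb)

/-- The flags are the `L i` of the tower. -/
theorem Lfl_eq (h : S.Ok) (hc : CodeOk S ch d p) {i : ℕ} (hi : 1 ≤ i) :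
    Lfl (FJ S ch d p) (LamJ S ch d p) i = ((twJ S h ch d p).L i : Set (CodeJ d J)) := by
  obtain ⟨i, rfl⟩ := Nat.exists_eq_add_of_le' hi
  cases i with
  | zero =>
    change FJ S ch d p = _
    rw [Tower.L_one (twJ_ok h hc), FJ_eq h]
  | succ i =>
    ext a
    change (a, 0) ∈ LamJ S ch d p (i + 1) ↔ _
    rw [LamJ_eq h hc (Nat.succ_le_succ (Nat.zero_le i)),
      Tower.lam_zero_right (twJ_ok h hc) (Nat.succ_le_succ (Nat.zero_le i))]
    rfl

theorem mem_Lfl_iff_tw (h : S.Ok) (hc : CodeOk S ch d p) {i : ℕ} (hi : 1 ≤ i) (a : CodeJ d J) :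
    a ∈ Lfl (FJ S ch d p) (LamJ S ch d p) i ↔ a ∈ (twJ S h ch d p).L i := by
  rw [Lfl_eq h hc hi]; rfl

/-- (a) `a` lies in `L i` iff there is a Selmer cocycle of level `i` above `a`. -/
theorem mem_Lfl_iff (h : S.Ok) (hc : CodeOk S ch d p) {i : ℕ} (hi : 1 ≤ i) (a : CodeJ d J) :
    a ∈ Lfl (FJ S ch d p) (LamJ S ch d p) i ↔ ∃ Psi, Abv S ch d p i a Psi := by
  rw [mem_Lfl_iff_tw h hc hi, Tower.mem_L]
  exact exists_congr fun Psi => (abv_iff h).symm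

theorem FJ_add (h : S.Ok) {a b : CodeJ d J} (ha : a ∈ FJ S ch d p) (hb : b ∈ FJ S ch d p) :
    a + b ∈ FJ S ch d p := by
  rw [FJ_eq h] at ha hb ⊢
  exact Submodule.add_mem _ ha hb

theorem FJ_smul (h : S.Ok) (x : ZMod 2) {a : CodeJ d J} (ha : a ∈ FJ S ch d p) :
    x • a ∈ FJ S ch d p := by
  rw [FJ_eq h] at ha ⊢
  exact Submodule.smul_mem _ _ ha

theorem FJ_zero (h : S.Ok) : (0 : CodeJ d J) ∈ FJ S ch d p := by
  rw [FJ_eq h]
  exact Submodule.zero_mem _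

theorem kapJ_mem_FJ (h : S.Ok) (hc : CodeOk S ch d p) (w : V1) : kapJ d J w ∈ FJ S ch d p := by
  rw [FJ_eq h]
  exact Tower.kp_le_Fs (twJ_ok h hc) ((mem_twJ_Kp h hc _).mpr ⟨w, rfl⟩)

theorem Lfl_add (h : S.Ok) (hc : CodeOk S ch d p) {i : ℕ} (hi : 1 ≤ i) {a b : CodeJ d J}
    (ha : a ∈ Lfl (FJ S ch d p) (LamJ S ch d p) i) (hb : b ∈ Lfl (FJ S ch d p) (LamJ S ch d p) i) :
    a + b ∈ Lfl (FJ S ch d p) (LamJ S ch d p) i := by
  rw [Lfl_eq h hc hi] at ha hb ⊢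
  exact Submodule.add_mem _ ha hb

theorem Lfl_smul (h : S.Ok) (hc : CodeOk S ch d p) {i : ℕ} (hi : 1 ≤ i) (x : ZMod 2)
    {a : CodeJ d J} (ha : a ∈ Lfl (FJ S ch d p) (LamJ S ch d p) i) :
    x • a ∈ Lfl (FJ S ch d p) (LamJ S ch d p) i := by
  rw [Lfl_eq h hc hi] at ha ⊢
  exact Submodule.smul_mem _ _ ha

theorem kapJ_mem_Lfl (h : S.Ok) (hc : CodeOk S ch d p) {i : ℕ} (hi : 1 ≤ i) (w : V1) :
    kapJ d J w ∈ Lfl (FJ S ch d p) (LamJ S ch d p) i := by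
  rw [Lfl_eq h hc hi]
  exact Tower.kp_le_L (twJ_ok h hc) hi ((mem_twJ_Kp h hc _).mpr ⟨w, rfl⟩)

theorem Lfl_anti (h : S.Ok) (hc : CodeOk S ch d p) {i j : ℕ} (hi : 1 ≤ i) (hij : i ≤ j) :
    Lfl (FJ S ch d p) (LamJ S ch d p) j ⊆ Lfl (FJ S ch d p) (LamJ S ch d p) i := by
  rw [Lfl_eq h hc hi, Lfl_eq h hc (hi.trans hij)]
  exact Tower.L_anti (twJ_ok h hc) hi hij

theorem Lfl_sub_FJ (h : S.Ok) (hc : CodeOk S ch d p) {i : ℕ} (hi : 1 ≤ i) :
    Lfl (FJ S ch d p) (LamJ S ch d p) i ⊆ FJ S ch d p := Lfl_anti h hc le_rfl hi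

theorem perpJ_iff (h : S.Ok) (hc : CodeOk S ch d p) (i : ℕ) {b : CodeJ d J}
    (hb : b ∈ FJ S ch d p) : Perp (LamJ S ch d p) i b ↔ (twJ S h ch d p).Perp i b := by
  have hb' := (mem_twJ_Fs S h ch d p b).mpr hb
  rcases Nat.eq_zero_or_pos i with rfl | hi
  · rw [Tower.perp_zero (twJ_ok h hc)]
    exact ⟨fun _ => hb', fun _ h0 => absurd h0 (by omega)⟩
  · rw [Tower.perp_iff_lam (twJ_ok h hc) hi, ← LamJ_eq h hc hi]
    exact ⟨fun hP => ⟨hb', hP hi⟩, fun hP _ => hP.2⟩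

/-- `b` is perpendicular to level `i` iff it pairs to zero with all Selmer cocycles of level `i`. -/
theorem perpJ_iff_CT (h : S.Ok) (hc : CodeOk S ch d p) (i : ℕ) {b : CodeJ d J}
    (hb : b ∈ FJ S ch d p) : Perp (LamJ S ch d p) i b ↔
      ∀ Psi, S.IsSel (chiJ ch p) i Psi → S.CT (chiJ ch p) Psi (homJ ch d p b) = 0 := by
  rw [perpJ_iff h hc i hb]
  constructor
  · rintro ⟨_, hP⟩ Psi hPsi
    rw [← twJ_PV h]
    exact hP Psi hPsi
  · intro hP
    refine ⟨(mem_twJ_Fs S h ch d p b).mpr hb, fun m hm => ?_⟩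
    rw [twJ_PV h]
    exact hP m hm

/-- `F_ab` does not depend on the choice of the cocycle. -/
theorem FFJ_eq (h : S.Ok) (hc : CodeOk S ch d p) {m : ℕ} (hm : 1 ≤ m) {a b : CodeJ d J}
    (hb : b ∈ FJ S ch d p) (hP : Perp (LamJ S ch d p) (m - 1) b) {Psi : G → V}
    (hA : Abv S ch d p m a Psi) :
    FFJ S ch d p m a b = S.CT (chiJ ch p) Psi (homJ ch d p b) := by
  have hex : ∃ Psi : G → V, Abv S ch d p m a Psi := ⟨Psi, hA⟩
  rw [FFJ, dif_pos hex]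
  have h1 := (abv_iff h).mp hA
  have h2 := (abv_iff h).mp hex.choose_spec
  have hP' := (perpJ_iff h hc _ hb).mp hP
  rw [← twJ_PV h, ← twJ_PV h, ← Tower.fab_eq (twJ_ok h hc) hm hP' h1.1 h1.2,
    ← Tower.fab_eq (twJ_ok h hc) hm hP' h2.1 h2.2]

theorem FFJ_eq_Fab (h : S.Ok) (hc : CodeOk S ch d p) {m : ℕ} (hm : 1 ≤ m) {a b : CodeJ d J}
    (ha : a ∈ Lfl (FJ S ch d p) (LamJ S ch d p) m)
    (hb : b ∈ FJ S ch d p) (hP : Perp (LamJ S ch d p) (m - 1) b) :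
    FFJ S ch d p m a b = (twJ S h ch d p).Fab m a b := by
  obtain ⟨Psi, hA⟩ := (mem_Lfl_iff h hc hm a).mp ha
  have h1 := (abv_iff h).mp hA
  rw [FFJ_eq h hc hm hb hP hA, ← twJ_PV h, Tower.fab_eq (twJ_ok h hc) hm
    ((perpJ_iff h hc _ hb).mp hP) h1.1 h1.2]

theorem indep2_iff (h : S.Ok) (hc : CodeOk S ch d p) (a b : CodeJ d J) :
    Indep2 d a b ↔ (twJ S h ch d p).Ind a b := by
  have hz : ∀ x : ZMod 2, x = 0 ∨ x = 1 := by decide
  rw [Tower.Ind, mem_twJ_Kp h hc, mem_twJ_Kp h hc, mem_twJ_Kp h hc]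
  constructor
  · intro hI
    refine ⟨?_, ?_, ?_⟩
    · rintro ⟨w, hw⟩
      have := (hI 1 0 w (by rw [one_smul, zero_smul, add_zero, hw])).1
      exact one_ne_zero this
    · rintro ⟨w, hw⟩
      have := (hI 0 1 w (by rw [one_smul, zero_smul, zero_add, hw])).2
      exact one_ne_zero this
    · rintro ⟨w, hw⟩
      have := (hI 1 1 w (by rw [one_smul, one_smul, add_comm, hw])).2
      exact one_ne_zero this
  · rintro ⟨h1, h2, h3⟩ x y w hw
    rcases hz x with rfl | rfl <;> rcases hz y with rfl | rfl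
    · exact ⟨rfl, rfl⟩
    · rw [one_smul, zero_smul, zero_add] at hw
      exact absurd ⟨w, hw⟩ h2
    · rw [one_smul, zero_smul, add_zero] at hw
      exact absurd ⟨w, hw⟩ h1
    · rw [one_smul, one_smul, add_comm] at hw
      exact absurd ⟨w, hw⟩ h3

/-! ### (b) cardinalities -/

theorem card_isSel (h : S.Ok) (i : ℕ) :
    Nat.card {Psi : G → V // S.IsSel (chiJ ch p) i Psi} = Nat.card ((twJ S h ch d p).Z i) := rfl

theorem finite_isSel (h : S.Ok) (hc : CodeOk S ch d p) (i : ℕ) :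
    Finite {Psi : G → V // S.IsSel (chiJ ch p) i Psi} := Tower.finite_Z (twJ_ok h hc) i

theorem card_isSel_succ (h : S.Ok) (hc : CodeOk S ch d p) (i : ℕ) :
    Nat.card {Psi : G → V // S.IsSel (chiJ ch p) (i + 1) Psi} =
      Nat.card {Psi : G → V // S.IsSel (chiJ ch p) i Psi} *
        Nat.card (Lfl (FJ S ch d p) (LamJ S ch d p) (i + 1)) := by
  rw [Lfl_eq h hc (Nat.succ_le_succ (Nat.zero_le i))]
  exact Tower.card_Z_succ (twJ_ok h hc) i

theorem card_isSel_zero (h : S.Ok) (hc : CodeOk S ch d p) :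
    Nat.card {Psi : G → V // S.IsSel (chiJ ch p) 0 Psi} = 1 :=
  Tower.card_Z_zero (twJ_ok h hc)

theorem card_isSel_eq (h : S.Ok) (hc : CodeOk S ch d p) (i : ℕ) :
    Nat.card {Psi : G → V // S.IsSel (chiJ ch p) i Psi} =
      ∏ j ∈ Finset.range i, Nat.card (Lfl (FJ S ch d p) (LamJ S ch d p) (j + 1)) := by
  induction i with
  | zero => rw [card_isSel_zero h hc, Finset.prod_range_zero]
  | succ i ih => rw [card_isSel_succ h hc, ih, Finset.prod_range_succ]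

theorem card_isSel_le (h : S.Ok) (hc : CodeOk S ch d p) (i : ℕ) :
    Nat.card {Psi : G → V // S.IsSel (chiJ ch p) i Psi} ≤ Nat.card (FJ S ch d p) ^ i := by
  rw [FJ_eq h]
  exact Tower.card_Z_le (twJ_ok h hc) i

/-! ### (c) the recursion -/

open Classical in
theorem recursionJ (h : S.Ok) (hc : CodeOk S ch d p) {i : ℕ} (hi : 1 ≤ i) :
    (Nat.card {Psi : G → V // S.IsSel (chiJ ch p) (i + 1) Psi} : ℝ) ≤
      12 * Nat.card {Psi : G → V // S.IsSel (chiJ ch p) i Psi} +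
      Nat.card {Psi : G → V // S.IsSel (chiJ ch p) (i - 1) Psi} *
        ∑ a : CodeJ d J, ∑ b : CodeJ d J,
          if a ∈ Lfl (FJ S ch d p) (LamJ S ch d p) i ∧ b ∈ FJ S ch d p ∧ Indep2 d a b ∧
            Perp (LamJ S ch d p) (i - 1) b then (-1 : ℝ) ^ (FFJ S ch d p i a b).val else 0 := by
  refine (Tower.recursion (twJ_ok h hc) hi (card_twJ_Kp h hc)).trans (le_of_eq ?_)
  congr 1
  congr 1
  refine Finset.sum_congr rfl fun a _ => Finset.sum_congr rfl fun b _ => ?_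
  by_cases hb : b ∈ FJ S ch d p
  · simp only [mem_Lfl_iff_tw h hc hi, hb, true_and, indep2_iff h hc, perpJ_iff h hc _ hb]
    split_ifs with h1
    · rw [FFJ_eq_Fab h hc hi ((mem_Lfl_iff_tw h hc hi a).mpr h1.1) hb
        ((perpJ_iff h hc _ hb).mpr h1.2.2)]
      have hz : ∀ x : ZMod 2, x = 0 ∨ x = 1 := by decide
      rcases hz ((twJ S h ch d p).Fab i a b) with h0 | h0
      · rw [h0, sgR_zero]; simp
      · rw [h0, sgR_one]
        have : (1 : ZMod 2).val = 1 := rfl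
        rw [this, pow_one]
    · rfl
  · rw [if_neg, if_neg]
    · exact fun hh => hb hh.2.1
    · exact fun hh => hb ((mem_twJ_Fs S h ch d p b).mp hh.2.2.1)

/-! ### (d) the adapted basis -/

theorem exists_basisJ (h : S.Ok) (hc : CodeOk S ch d p) {m : ℕ} (hm : 1 ≤ m) {a b : CodeJ d J}
    (ha : a ∈ Lfl (FJ S ch d p) (LamJ S ch d p) m) (hb : b ∈ FJ S ch d p) (hI : Indep2 d a b) :
    ∃ (r : ℕ) (c : Fin r → CodeJ d J) (l1 l0 : Fin r) (β : Fin r → ZMod 2),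
      l0 ≠ l1 ∧ c l1 = a ∧ (∀ l, c l ∈ FJ S ch d p) ∧
      (∀ x ∈ FJ S ch d p, ∃ (α : Fin r → ZMod 2) (w : V1), x = kapJ d J w + ∑ l, α l • c l) ∧
      (∀ (α : Fin r → ZMod 2) (w : V1), ∑ l, α l • c l = kapJ d J w → α = 0) ∧
      (∀ i, 1 ≤ i → i ≤ m → ∀ x ∈ Lfl (FJ S ch d p) (LamJ S ch d p) i,
        ∃ (α : Fin r → ZMod 2) (w : V1), x = kapJ d J w + ∑ l, α l • c l ∧
          ∀ l, α l ≠ 0 → c l ∈ Lfl (FJ S ch d p) (LamJ S ch d p) i) ∧
      b = ∑ l, β l • c l ∧ β l1 = 0 ∧ β l0 = 1 := by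
  obtain ⟨r, cc, la, lb, β, had, h1, h2, h3, h4, h5⟩ := Tower.exists_basis (twJ_ok h hc) hm
    ((mem_Lfl_iff_tw h hc hm a).mp ha) ((mem_twJ_Fs S h ch d p b).mpr hb)
    ((indep2_iff h hc a b).mp hI)
  have hsp : ∀ x ∈ FJ S ch d p, ∃ (α : Fin r → ZMod 2) (w : V1),
      x = kapJ d J w + ∑ l, α l • cc l := by
    intro x hx
    obtain ⟨α, hα⟩ := had.span x ((mem_twJ_Fs S h ch d p x).mpr hx)
    obtain ⟨w, hw⟩ := (mem_twJ_Kp h hc _).mp hα
    exact ⟨α, w, by rw [← hw, sub_add_cancel]⟩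
  refine ⟨r, cc, la, lb, β, h5.symm, h1, fun l => (mem_twJ_Fs S h ch d p _).mp (had.mem l), hsp,
    fun α w hα => had.indep α ((mem_twJ_Kp h hc _).mpr ⟨w, hα⟩), ?_, h2, h3, h4⟩
  intro i hi him x hx
  obtain ⟨α, w, hxe⟩ := hsp x (Lfl_sub_FJ h hc hi hx)
  refine ⟨α, w, hxe, fun l hl => ?_⟩
  rw [mem_Lfl_iff_tw h hc hi] at hx ⊢
  refine had.adapt i hi him α ?_ l hl
  have : ∑ l, α l • cc l = x - kapJ d J w := by rw [hxe, add_sub_cancel_left]
  rw [this]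
  exact Submodule.sub_mem _ hx (Tower.kp_le_L (twJ_ok h hc) hi ((mem_twJ_Kp h hc _).mpr ⟨w, rfl⟩))

end Pool.Agent.Sm
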